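import Mathlib

/-!
# An alternating identity for matrices

If `u 0, …, u m` and `v 0, …, v (m-1)` are `n × n` matrices over a commutative ring with
`[u j, v c] = u (j+1)` if `c = j` and `= 0` otherwise, and `m > n ^ 2`, then `u m = 0`.
-/

namespace Pool.Agent.Helper89

open Matrix

variable {S : Type*} [CommRing S] {n : ℕ}

/-- The right bracket `a ↦ a * z - z * a`, linear in `z`. -/
noncomputable def rbr (S : Type*) [CommRing S] (n : ℕ) :
    Matrix (Fin n) (Fin n) S →ₗ[S] Module.End S (Matrix (Fin n) (Fin n) S) :=
  (LinearMap.mul S (Matrix (Fin n) (Fin n) S)).flip - LinearMap.mul S (Matrix (Fin n) (Fin n) S)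

theorem rbr_apply (z a : Matrix (Fin n) (Fin n) S) : rbr S n z a = a * z - z * a := by
  simp [rbr]

theorem list_prod_apply {M : Type*} [AddCommGroup M] [Module S M] (m : ℕ) (u : ℕ → M)
    (D : ℕ → Module.End S M)
    (h : ∀ c < m, ∀ j ≤ m, D c (u j) = if c = j then u (j + 1) else 0) (l : List ℕ)
    (hl : ∀ c ∈ l, c < m) (hlen : l.length ≤ m) :
    (l.map D).prod (u 0) = if l = (List.range l.length).reverse then u l.length else 0 := by
  induction l with
  | nil => simp
  | cons c l ih =>
    have hl' : ∀ c ∈ l, c < m := fun c hc => hl c (List.mem_cons_of_mem _ hc)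
    have hlen' : l.length ≤ m := by simp only [List.length_cons] at hlen; omega
    have ih' := ih hl' hlen'
    have hiff : (c :: l = (List.range (c :: l).length).reverse) ↔
        (c = l.length ∧ l = (List.range l.length).reverse) := by
      rw [List.length_cons, List.range_succ, List.reverse_append, List.reverse_singleton,
        List.singleton_append, List.cons.injEq]
    rw [List.map_cons, List.prod_cons, Module.End.mul_apply, ih']
    by_cases h1 : l = (List.range l.length).reverse
    · rw [if_pos h1, h c (hl c (List.mem_cons_self)) _ hlen']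
      by_cases h2 : c = l.length
      · rw [if_pos h2, if_pos (hiff.2 ⟨h2, h1⟩), List.length_cons]
      · rw [if_neg h2, if_neg (fun hh => h2 (hiff.1 hh).1)]
    · rw [if_neg h1, map_zero, if_neg (fun hh => h1 (hiff.1 hh).2)]

/-- The alternating identity. -/
theorem eq_zero_of_bracket_relations (m : ℕ) (hm : n * n < m)
    (u v : ℕ → Matrix (Fin n) (Fin n) S)
    (h : ∀ c < m, ∀ j ≤ m, u j * v c - v c * u j = if c = j then u (j + 1) else 0) :
    u m = 0 := by
  classical
  let A := Matrix (Fin n) (Fin n) S
  let f : MultilinearMap S (fun _ : Fin m => A) (Module.End S A) :=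
    (MultilinearMap.mkPiAlgebraFin S m (Module.End S A)).compLinearMap fun _ => rbr S n
  have hzero : MultilinearMap.alternatization f = 0 := by
    apply Module.Basis.ext_alternating (Matrix.stdBasis S (Fin n) (Fin n))
    intro w hw
    exfalso
    have := Fintype.card_le_of_injective w hw
    simp only [Fintype.card_fin, Fintype.card_prod] at this
    omega
  let w : Fin m → A := fun i => v (m - 1 - i)
  have h1 : MultilinearMap.alternatization f w (u 0) = 0 := by rw [hzero]; rfl
  rw [MultilinearMap.alternatization_apply] at h1
  have hD : ∀ c < m, ∀ j ≤ m, (rbr S n (v c)) (u j) = if c = j then u (j + 1) else 0 := by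
    intro c hc j hj
    rw [rbr_apply]
    exact h c hc j hj
  have hterm : ∀ σ : Equiv.Perm (Fin m),
      (f.domDomCongr σ w) (u 0) = if σ = 1 then u m else 0 := by
    intro σ
    have e1 : f.domDomCongr σ w =
        ((List.ofFn fun i : Fin m => m - 1 - (σ i : ℕ)).map fun c => rbr S n (v c)).prod := by
      simp only [f, MultilinearMap.domDomCongr_apply, MultilinearMap.compLinearMap_apply,
        MultilinearMap.mkPiAlgebraFin_apply, List.map_ofFn, w]
      rfl
    rw [e1, list_prod_apply m u (fun c => rbr S n (v c)) hD]
    · rw [List.length_ofFn]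
      congr 1
      rw [eq_iff_iff]
      constructor
      · intro hl
        ext i
        have := congrArg (fun l : List ℕ => l[(i : ℕ)]?) hl
        have h3 := i.2
        simp only [List.getElem?_ofFn, i.2, dite_true] at this
        rw [List.getElem?_reverse (by rw [List.length_range]; exact i.2)] at this
        rw [List.length_range, List.getElem?_range (by omega)] at this
        simp only [Option.some.injEq, Fin.eta] at this
        have h2 := (σ i).2
        simp only [Equiv.Perm.coe_one, id_eq]
        omega
      · rintro rfl
        apply List.ext_getElem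
        · simp
        · intro i hi1 hi2
          simp
    · intro c hc
      rw [List.mem_ofFn] at hc
      obtain ⟨i, rfl⟩ := hc
      have := i.2
      omega
    · rw [List.length_ofFn]
  have h2 : ∑ σ : Equiv.Perm (Fin m), Equiv.Perm.sign σ • (f.domDomCongr σ w) (u 0) = 0 := by
    rw [← h1, LinearMap.sum_apply]
    rfl
  simp only [hterm] at h2
  rw [Finset.sum_eq_single (1 : Equiv.Perm (Fin m))] at h2
  · simpa using h2
  · intro σ _ hσ
    rw [if_neg hσ, smul_zero]
  · intro h3
    exact absurd (Finset.mem_univ _) h3

end Pool.Agent.Helper89
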