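import Mathlib

/-!
# A maximally monotone operator that is not of type (FPV)

Space `X = ℝ × c₀(ℕ × ℕ)`.  We build a monotone set `A0 ⊆ X × X*`, such that every
maximally monotone extension of it is not of type (FPV).
-/

set_option autoImplicit false

open Filter Topology ZeroAtInfty

namespace Pool.Agent.Helper89.FPV

noncomputable section

/-- the space `c₀(ℕ × ℕ)` -/
abbrev E := C₀(ℕ × ℕ, ℝ)

/-- the Banach space of the counterexample -/
abbrev X := ℝ × E

/-! ### Unit vectors, evaluations -/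

/-- unit vector of `c₀(ℕ × ℕ)` -/
def dl (p : ℕ × ℕ) : E where
  toFun q := if q = p then 1 else 0
  continuous_toFun := continuous_of_discreteTopology
  zero_at_infty' := by
    rw [cocompact_eq_cofinite]
    refine tendsto_const_nhds.congr' ?_
    have h : ∀ᶠ q : ℕ × ℕ in cofinite, q ≠ p := by
      rw [eventually_cofinite]
      have : {x : ℕ × ℕ | ¬ x ≠ p} = {p} := by
        ext q; simp
      rw [this]
      exact Set.finite_singleton p
    filter_upwards [h] with q hq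
    simp [hq]

lemma dl_apply (p q : ℕ × ℕ) : dl p q = if q = p then 1 else 0 := rfl

lemma norm_le_of (g : E) (C : ℝ) (hC : 0 ≤ C) (h : ∀ p, |g p| ≤ C) : ‖g‖ ≤ C := by
  rw [← ZeroAtInftyContinuousMap.norm_toBCF_eq_norm]
  exact (BoundedContinuousFunction.norm_le hC).2 h

lemma abs_apply_le (g : E) (p : ℕ × ℕ) : |g p| ≤ ‖g‖ := by
  rw [← ZeroAtInftyContinuousMap.norm_toBCF_eq_norm]
  exact BoundedContinuousFunction.norm_coe_le_norm g.toBCF p

/-- evaluation functional -/
def ev (p : ℕ × ℕ) : E →L[ℝ] ℝ :=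
  LinearMap.mkContinuous
    { toFun := fun g => g p
      map_add' := fun _ _ => rfl
      map_smul' := fun _ _ => rfl } 1 (by
        intro g
        simpa using abs_apply_le g p)

lemma ev_apply (p : ℕ × ℕ) (g : E) : ev p g = g p := rfl

lemma sum_apply (F : Finset (ℕ × ℕ)) (c : ℕ × ℕ → ℝ) (q : ℕ × ℕ) :
    (∑ p ∈ F, c p • dl p : E) q = if q ∈ F then c q else 0 := by
  rw [← ev_apply, map_sum]
  simp only [map_smul, ev_apply, dl_apply, smul_eq_mul, mul_ite, mul_one, mul_zero]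
  rw [Finset.sum_ite_eq]

lemma tendsto_cofinite (g : E) : Tendsto (fun p => g p) cofinite (𝓝 0) := by
  have := g.zero_at_infty'
  rw [cocompact_eq_cofinite] at this
  exact this

lemma finite_large (g : E) (ε : ℝ) (hε : 0 < ε) : {p : ℕ × ℕ | ε ≤ |g p|}.Finite := by
  have h := (tendsto_cofinite g).eventually (Metric.ball_mem_nhds (0 : ℝ) hε)
  rw [eventually_cofinite] at h
  refine h.subset ?_
  intro p hp
  simpa [Metric.mem_ball, dist_eq_norm] using hp

lemma hasSum_dl (g : E) : HasSum (fun p => g p • dl p) g := by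
  rw [HasSum, SummationFilter.unconditional_filter, Metric.tendsto_atTop]
  intro ε hε
  refine ⟨(finite_large g (ε / 2) (by positivity)).toFinset, fun F hF => ?_⟩
  rw [dist_eq_norm]
  refine lt_of_le_of_lt (norm_le_of _ (ε / 2) (by positivity) ?_) (by linarith)
  intro p
  rw [ZeroAtInftyContinuousMap.sub_apply, sum_apply]
  by_cases hp : p ∈ F
  · simp [hp]; positivity
  · have : p ∉ (finite_large g (ε / 2) (by positivity)).toFinset := fun h => hp (hF h)
    simp only [Set.Finite.mem_toFinset, Set.mem_ofPred_eq, not_le] at this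
    simp only [hp, if_false, zero_sub, abs_neg]
    exact this.le

/-! ### Coefficients of a functional -/

lemma hasSum_fun (f : X →L[ℝ] ℝ) (x : X) :
    HasSum (fun p => x.2 p * f (0, dl p)) (f x - x.1 * f (1, 0)) := by
  have h1 := (ContinuousLinearMap.inr ℝ ℝ E).hasSum (hasSum_dl x.2)
  have h2 := f.hasSum h1
  have e1 : f ((ContinuousLinearMap.inr ℝ ℝ E) x.2) = f x - x.1 * f (1, 0) := by
    have h3 : f x = f (x.1 • ((1, 0) : X) + (0, x.2)) := by
      congr 1
      ext <;> simp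
    rw [h3, map_add, map_smul, smul_eq_mul, ContinuousLinearMap.inr_apply]
    ring
  rw [e1] at h2
  convert h2 using 2 with p
  have h4 : ((ContinuousLinearMap.inr ℝ ℝ E) (x.2 p • dl p)) = x.2 p • ((0, dl p) : X) := by
    simp [ContinuousLinearMap.inr_apply]
  rw [h4, map_smul, smul_eq_mul]

lemma summable_abs (f : X →L[ℝ] ℝ) : Summable (fun p => |f (0, dl p)|) := by
  refine summable_of_sum_le (c := ‖f‖) (fun p => abs_nonneg _) ?_
  intro F
  have h1 : (∑ p ∈ F, |f (0, dl p)|)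
      = f (0, ∑ p ∈ F, (SignType.sign (f (0, dl p)) : ℝ) • dl p) := by
    have h2 : ((0, ∑ p ∈ F, (SignType.sign (f (0, dl p)) : ℝ) • dl p) : X)
        = ∑ p ∈ F, (SignType.sign (f (0, dl p)) : ℝ) • ((0, dl p) : X) := by
      ext1
      · simp [Prod.fst_sum]
      · simp [Prod.snd_sum]
    rw [h2, map_sum]
    refine Finset.sum_congr rfl fun p _ => ?_
    rw [map_smul, smul_eq_mul]
    exact (sign_mul_self (f (0, dl p))).symm
  rw [h1]
  refine (le_abs_self _).trans ?_
  refine (f.le_opNorm _).trans ?_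
  refine mul_le_of_le_one_right (norm_nonneg _) ?_
  rw [Prod.norm_def]
  simp only [norm_zero]
  refine max_le zero_le_one (norm_le_of _ 1 zero_le_one ?_)
  intro q
  rw [sum_apply]
  split_ifs
  · rcases lt_trichotomy (f (0, dl q)) 0 with h | h | h
    · simp [sign_neg h]
    · simp [h]
    · simp [sign_pos h]
  · simp

/-! ### The linear relation -/

/-- the local relation defining the subspace `L` -/
def InL (x : X) (f : X →L[ℝ] ℝ) : Prop :=
  ∀ i n : ℕ, x.2 (i, n + 1) - x.2 (i, n) = f (0, dl (i, n)) + f (0, dl (i, n + 1))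

/-- the coordinates `s` -/
def sv (x : X) (f : X →L[ℝ] ℝ) (i : ℕ) : ℝ := (f (0, dl (i, 0)) - x.2 (i, 0)) / 2

lemma InL.add {x x' : X} {f f' : X →L[ℝ] ℝ} (h : InL x f) (h' : InL x' f') :
    InL (x + x') (f + f') := by
  intro i n
  have h1 := h i n
  have h2 := h' i n
  simp only [Prod.snd_add, ZeroAtInftyContinuousMap.add_apply, add_apply]
  linarith

lemma InL.smul {x : X} {f : X →L[ℝ] ℝ} (h : InL x f) (t : ℝ) :
    InL (t • x) (t • f) := by
  intro i n
  have h1 := h i n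
  simp only [Prod.smul_snd, ZeroAtInftyContinuousMap.smul_apply, smul_apply,
    smul_eq_mul]
  linear_combination t * h1

lemma InL.sub {x x' : X} {f f' : X →L[ℝ] ℝ} (h : InL x f) (h' : InL x' f') :
    InL (x - x') (f - f') := by
  intro i n
  have h1 := h i n
  have h2 := h' i n
  simp only [Prod.snd_sub, ZeroAtInftyContinuousMap.sub_apply, sub_apply]
  linarith

lemma sv_add (x x' : X) (f f' : X →L[ℝ] ℝ) (i : ℕ) :
    sv (x + x') (f + f') i = sv x f i + sv x' f' i := by
  simp only [sv, Prod.snd_add, ZeroAtInftyContinuousMap.add_apply, add_apply]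
  ring

lemma sv_smul (x : X) (f : X →L[ℝ] ℝ) (t : ℝ) (i : ℕ) :
    sv (t • x) (t • f) i = t * sv x f i := by
  simp only [sv, Prod.smul_snd, ZeroAtInftyContinuousMap.smul_apply,
    smul_apply, smul_eq_mul]
  ring

lemma sv_sub (x x' : X) (f f' : X →L[ℝ] ℝ) (i : ℕ) :
    sv (x - x') (f - f') i = sv x f i - sv x' f' i := by
  simp only [sv, Prod.snd_sub, ZeroAtInftyContinuousMap.sub_apply, sub_apply]
  ring

/-- Key computation. -/
lemma InL.key {x : X} {f : X →L[ℝ] ℝ} (h : InL x f) :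
    Summable (fun i => |sv x f i|) ∧
      HasSum (fun i => (sv x f i) ^ 2) (x.1 * f (1, 0) - f x) := by
  set y : ℕ × ℕ → ℝ := fun p => f (0, dl p) with hy
  set T : ℕ → ℕ → ℝ := fun i n => (y (i, n) - x.2 (i, n)) / 2 with hT
  have hstep : ∀ i n, T i (n + 1) = - (y (i, n) + x.2 (i, n)) / 2 := by
    intro i n
    have := h i n
    simp only [hT, hy]
    linarith
  have hyT : ∀ i n, y (i, n) = T i n - T i (n + 1) := by
    intro i n
    rw [hstep]
    simp only [hT]
    ring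
  have hxyT : ∀ i n, x.2 (i, n) * y (i, n) = (T i (n + 1)) ^ 2 - (T i n) ^ 2 := by
    intro i n
    rw [hstep]
    simp only [hT]
    ring
  have hyabs : Summable (fun p => |y p|) := summable_abs f
  have hysum : Summable y := hyabs.of_abs
  have hyi : ∀ i, Summable (fun n => y (i, n)) := fun i => hysum.prod_factor i
  have hinj : ∀ i : ℕ, Function.Injective (fun n : ℕ => ((i, n) : ℕ × ℕ)) := by
    intro i a b hab
    exact (Prod.mk.inj hab).2
  have hTlim : ∀ i, Tendsto (T i) atTop (𝓝 0) := by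
    intro i
    have h1 : Tendsto (fun n => y (i, n)) atTop (𝓝 0) := (hyi i).tendsto_atTop_zero
    have h2 : Tendsto (fun n => x.2 (i, n)) atTop (𝓝 0) := by
      have := (tendsto_cofinite x.2).comp (hinj i).tendsto_cofinite
      rw [Nat.cofinite_eq_atTop] at this
      exact this
    have h3 := (h1.sub h2).div_const 2
    simpa using h3
  have hs : ∀ i, HasSum (fun n => y (i, n)) (T i 0) := by
    intro i
    have h1 := (hyi i).hasSum.tendsto_sum_nat
    have h2 : Tendsto (fun N => ∑ n ∈ Finset.range N, y (i, n)) atTop (𝓝 (T i 0 - 0)) := by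
      have h3 : (fun N => ∑ n ∈ Finset.range N, y (i, n)) = fun N => T i 0 - T i N := by
        funext N
        rw [← Finset.sum_range_sub' (T i) N]
        exact Finset.sum_congr rfl fun n _ => hyT i n
      rw [h3]
      exact tendsto_const_nhds.sub (hTlim i)
    have h4 := tendsto_nhds_unique h1 h2
    rw [sub_zero] at h4
    rw [← h4]
    exact (hyi i).hasSum
  have hxy : HasSum (fun p => x.2 p * y p) (f x - x.1 * f (1, 0)) := hasSum_fun f x
  have hxyi : ∀ i, Summable (fun n => x.2 (i, n) * y (i, n)) :=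
    fun i => hxy.summable.prod_factor i
  have hq : ∀ i, HasSum (fun n => x.2 (i, n) * y (i, n)) (-(T i 0) ^ 2) := by
    intro i
    have h1 := (hxyi i).hasSum.tendsto_sum_nat
    have h2 : Tendsto (fun N => ∑ n ∈ Finset.range N, x.2 (i, n) * y (i, n)) atTop
        (𝓝 (0 ^ 2 - (T i 0) ^ 2)) := by
      have h3 : (fun N => ∑ n ∈ Finset.range N, x.2 (i, n) * y (i, n))
          = fun N => (T i N) ^ 2 - (T i 0) ^ 2 := by
        funext N
        rw [← Finset.sum_range_sub (fun n => (T i n) ^ 2) N]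
        exact Finset.sum_congr rfl fun n _ => hxyT i n
      rw [h3]
      exact ((hTlim i).pow 2).sub tendsto_const_nhds
    have h4 := tendsto_nhds_unique h1 h2
    have h5 : (0 : ℝ) ^ 2 - (T i 0) ^ 2 = -(T i 0) ^ 2 := by ring
    rw [h5] at h4
    rw [← h4]
    exact (hxyi i).hasSum
  have hsv : ∀ i, sv x f i = T i 0 := fun i => rfl
  constructor
  · have h1 : Summable (fun i => ∑' n, |y (i, n)|) := hyabs.prod
    refine Summable.of_nonneg_of_le (fun i => abs_nonneg _) (fun i => ?_) h1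
    rw [hsv, ← (hs i).tsum_eq]
    have h2 : Summable (fun n => ‖y (i, n)‖) := by
      simpa [Real.norm_eq_abs] using hyabs.prod_factor i
    have h3 := norm_tsum_le_tsum_norm h2
    simpa [Real.norm_eq_abs] using h3
  · have h1 := hxy.prod_fiberwise hq
    have h2 := h1.neg
    have h3 : -(f x - x.1 * f (1, 0)) = x.1 * f (1, 0) - f x := by ring
    rw [h3] at h2
    have h4 : (fun i => (sv x f i) ^ 2) = fun i => - -(T i 0) ^ 2 := by
      funext i
      rw [hsv]
      ring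
    rw [h4]
    exact h2

/-! ### The approximating points -/

/-- the square summable, non summable sequence -/
def sg (i : ℕ) : ℝ := 1 / ((i : ℝ) + 1)

/-- cut-off points -/
def NN (k : ℕ) : ℕ := 4 ^ (k + 1)

/-- radii -/
def rr (k : ℕ) : ℝ := (1 / 2 : ℝ) ^ k

/-- truncations -/
def tr (k i : ℕ) : ℝ := if i < NN k then sg i else 0

lemma sg_pos (i : ℕ) : 0 < sg i := by unfold sg; positivity

lemma sg_zero : sg 0 = 1 := by simp [sg]

lemma NN_pos (k : ℕ) : 0 < NN k := by unfold NN; positivity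

lemma NN_mono {k l : ℕ} (h : k ≤ l) : NN k ≤ NN l :=
  Nat.pow_le_pow_right (by norm_num) (by omega)

lemma tr_zero (k : ℕ) : tr k 0 = 1 := by simp [tr, NN_pos, sg_zero]

lemma not_summable_sg : ¬ Summable sg := by
  intro h
  have h1 : Summable (fun i : ℕ => 1 / (i : ℝ)) := by
    rw [← summable_nat_add_iff 1]
    have h2 : (fun n : ℕ => 1 / ((n + 1 : ℕ) : ℝ)) = sg := by
      funext n
      simp [sg]
    rw [h2]
    exact h
  exact Real.not_summable_one_div_natCast h1

lemma sum_sg_sq_Ico (N M : ℕ) (hN : 0 < N) (hNM : N ≤ M) :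
    ∑ i ∈ Finset.Ico N M, (sg i) ^ 2 ≤ 1 / (N : ℝ) - 1 / (M : ℝ) := by
  induction M, hNM using Nat.le_induction with
  | base => simp
  | succ M hM ih =>
    rw [Finset.sum_Ico_succ_top hM]
    have hMpos : (0 : ℝ) < M := by exact_mod_cast lt_of_lt_of_le hN hM
    have h1 : (sg M) ^ 2 ≤ 1 / (M : ℝ) - 1 / ((M + 1 : ℕ) : ℝ) := by
      unfold sg
      push_cast
      rw [div_sub_div _ _ (by positivity) (by positivity), div_pow, div_le_div_iff₀ (by positivity)
        (by positivity)]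
      nlinarith
    linarith

lemma sum_sg_sq_range (M : ℕ) : ∑ i ∈ Finset.range M, (sg i) ^ 2 ≤ 2 := by
  rcases Nat.eq_zero_or_pos M with h | h
  · subst h; simp
  · have h1 : 1 ≤ M := h
    have h2 := sum_sg_sq_Ico 1 M one_pos h1
    have h3 := Finset.sum_range_add_sum_Ico (fun i => (sg i) ^ 2) h1
    rw [← h3]
    simp only [Finset.sum_range_one, sg_zero]
    have h4 : (0 : ℝ) ≤ 1 / (M : ℝ) := by positivity
    have h5 : (1 : ℝ) / ((1 : ℕ) : ℝ) = 1 := by norm_num
    linarith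

lemma rr_pos (k : ℕ) : 0 < rr k := by unfold rr; positivity

lemma tendsto_rr : Tendsto rr atTop (𝓝 0) :=
  tendsto_pow_atTop_nhds_zero_of_lt_one (by norm_num) (by norm_num)

lemma hasSum_diff_aux (k l : ℕ) (h : k ≤ l) :
    HasSum (fun i => (tr k i - tr l i) ^ 2) (∑ i ∈ Finset.Ico (NN k) (NN l), (sg i) ^ 2) := by
  have h1 : ∀ i ∉ Finset.Ico (NN k) (NN l), (tr k i - tr l i) ^ 2 = 0 := by
    intro i hi
    simp only [Finset.mem_Ico, not_and, not_lt] at hi
    unfold tr
    by_cases h1 : i < NN k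
    · have h2 : i < NN l := lt_of_lt_of_le h1 (NN_mono h)
      simp [h1, h2]
    · have h2 : ¬ i < NN l := not_lt.2 (hi (not_lt.1 h1))
      simp [h1, h2]
  have h2 : HasSum (fun i => (tr k i - tr l i) ^ 2)
      (∑ i ∈ Finset.Ico (NN k) (NN l), (tr k i - tr l i) ^ 2) := hasSum_sum_of_ne_finset_zero h1
  convert h2 using 1
  refine Finset.sum_congr rfl fun i hi => ?_
  simp only [Finset.mem_Ico] at hi
  unfold tr
  have h3 : ¬ i < NN k := not_lt.2 hi.1
  simp [h3, hi.2]

lemma diff_le_aux (k l : ℕ) (h : k ≤ l) :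
    ∑ i ∈ Finset.Ico (NN k) (NN l), (sg i) ^ 2 ≤ (rr k - rr l) ^ 2 := by
  rcases Nat.eq_or_lt_of_le h with h1 | h1
  · subst h1; simp
  · have h2 := sum_sg_sq_Ico (NN k) (NN l) (NN_pos k) (NN_mono h)
    have h3 : (0 : ℝ) ≤ 1 / (NN l : ℝ) := by positivity
    have h4 : (1 : ℝ) / (NN k : ℝ) = (rr k / 2) ^ 2 := by
      have h5 : (NN k : ℝ) = ((2 : ℝ) ^ (k + 1)) ^ 2 := by
        unfold NN
        push_cast
        rw [← pow_mul, mul_comm (k + 1) 2, pow_mul]
        norm_num
      have h6 : rr k / 2 = 1 / (2 : ℝ) ^ (k + 1) := by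
        unfold rr
        rw [one_div_pow, pow_succ]
        field_simp
      rw [h5, h6, div_pow, one_pow]
    have h5 : rr l ≤ rr k / 2 := by
      unfold rr
      have h6 : (1 / 2 : ℝ) ^ l ≤ (1 / 2 : ℝ) ^ (k + 1) :=
        pow_le_pow_of_le_one (by norm_num) (by norm_num) h1
      rw [pow_succ] at h6
      linarith
    have h6 : (rr k / 2) ^ 2 ≤ (rr k - rr l) ^ 2 := by
      have h7 := rr_pos k
      apply pow_le_pow_left₀ (by positivity)
      linarith
    linarith

/-- existence form, symmetric in `k`, `l` -/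
lemma exists_hasSum_diff (k l : ℕ) :
    ∃ D, HasSum (fun i => (tr k i - tr l i) ^ 2) D ∧ D ≤ (rr k - rr l) ^ 2 := by
  rcases le_total k l with h | h
  · exact ⟨_, hasSum_diff_aux k l h, diff_le_aux k l h⟩
  · refine ⟨_, ?_, (diff_le_aux l k h).trans_eq (by ring)⟩
    convert hasSum_diff_aux l k h using 2 with i
    ring

/-! ### The monotone set `A0` -/

/-- lower points -/
def Lower (k : ℕ) (x : X) (f : X →L[ℝ] ℝ) : Prop :=
  InL x f ∧ x.1 = -rr k ∧ f (1, 0) = -rr k ∧ ∀ i, sv x f i = tr k i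

/-- upper points -/
def Upper (k : ℕ) (x : X) (f : X →L[ℝ] ℝ) : Prop :=
  InL x f ∧ x.1 = 1 + rr k ∧ f (1, 0) = 1 + rr k ∧
    ∀ i, sv x f i = tr k i + if i = 0 then 1 else 0

/-- the monotone set -/
def A0 : Set (X × (X →L[ℝ] ℝ)) := {p | ∃ k, Lower k p.1 p.2 ∨ Upper k p.1 p.2}

lemma pair_formula {x x' : X} {f f' : X →L[ℝ] ℝ} (h : InL x f) (h' : InL x' f') {D : ℝ}
    (hD : HasSum (fun i => (sv x f i - sv x' f' i) ^ 2) D) :
    (f - f') (x - x') = (x.1 - x'.1) * (f (1, 0) - f' (1, 0)) - D := by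
  have h1 := (h.sub h').key.2
  simp only [sv_sub] at h1
  have h2 := h1.unique hD
  simp only [Prod.fst_sub, sub_apply] at h2
  simp only [sub_apply]
  linarith

lemma rel_symm (x x' : X) (f f' : X →L[ℝ] ℝ) : (f - f') (x - x') = (f' - f) (x' - x) := by
  have h1 : f - f' = -(f' - f) := by abel
  have h2 : x - x' = -(x' - x) := by abel
  rw [h1, h2, map_neg, neg_apply, neg_neg]

lemma A0_mono_LU (k l : ℕ) {x x' : X} {f f' : X →L[ℝ] ℝ} (h : Lower k x f) (h' : Upper l x' f') :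
    0 ≤ (f - f') (x - x') := by
  obtain ⟨hL, h1, h2, h3⟩ := h
  obtain ⟨hL', h1', h2', h3'⟩ := h'
  obtain ⟨D, hD, hDle⟩ := exists_hasSum_diff k l
  have hsum : HasSum (fun i => (sv x f i - sv x' f' i) ^ 2) (D + 1) := by
    have h4 : HasSum (fun i : ℕ => if i = 0 then (1 : ℝ) else 0) 1 := by
      have := hasSum_ite_eq (0 : ℕ) (1 : ℝ)
      exact this
    have h5 := hD.add h4
    convert h5 using 2 with i
    rw [h3, h3']
    by_cases hi : i = 0
    · subst hi
      simp [tr_zero]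
    · simp [hi]
  rw [pair_formula hL hL' hsum, h1, h1', h2, h2']
  have := rr_pos k
  have := rr_pos l
  nlinarith

lemma A0_mono {p q : X × (X →L[ℝ] ℝ)} (hp : p ∈ A0) (hq : q ∈ A0) :
    0 ≤ (p.2 - q.2) (p.1 - q.1) := by
  obtain ⟨x, f⟩ := p
  obtain ⟨x', f'⟩ := q
  obtain ⟨k, hk⟩ := hp
  obtain ⟨l, hl⟩ := hq
  simp only at hk hl ⊢
  rcases hk with hk | hk <;> rcases hl with hl | hl
  · obtain ⟨hL, h1, h2, h3⟩ := hk
    obtain ⟨hL', h1', h2', h3'⟩ := hl
    obtain ⟨D, hD, hDle⟩ := exists_hasSum_diff k l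
    have hsum : HasSum (fun i => (sv x f i - sv x' f' i) ^ 2) D := by
      simpa only [h3, h3'] using hD
    rw [pair_formula hL hL' hsum, h1, h1', h2, h2']
    nlinarith
  · exact A0_mono_LU k l hk hl
  · rw [rel_symm]
    exact A0_mono_LU l k hl hk
  · obtain ⟨hL, h1, h2, h3⟩ := hk
    obtain ⟨hL', h1', h2', h3'⟩ := hl
    obtain ⟨D, hD, hDle⟩ := exists_hasSum_diff k l
    have hsum : HasSum (fun i => (sv x f i - sv x' f' i) ^ 2) D := by
      convert hD using 2 with i
      rw [h3, h3']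
      ring
    rw [pair_formula hL hL' hsum, h1, h1', h2, h2']
    nlinarith

/-! ### Elements of `A0` -/

/-- base vector -/
def xb (p : ℝ) (F : Finset ℕ) (c : ℕ → ℝ) : X := (p, -∑ i ∈ F, c i • dl (i, 0))

/-- base functional -/
def fb (a : ℝ) (F : Finset ℕ) (c : ℕ → ℝ) : X →L[ℝ] ℝ :=
  a • ContinuousLinearMap.fst ℝ ℝ E + ∑ i ∈ F, c i • (ev (i, 0)).comp (ContinuousLinearMap.snd ℝ ℝ E)

lemma sum_dl_apply (F : Finset ℕ) (c : ℕ → ℝ) (i n : ℕ) :
    (∑ j ∈ F, c j • dl (j, 0) : E) (i, n) = if i ∈ F ∧ n = 0 then c i else 0 := by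
  rw [← ev_apply, map_sum]
  simp only [map_smul, ev_apply, dl_apply, smul_eq_mul, mul_ite, mul_one, mul_zero, Prod.mk.injEq]
  by_cases hn : n = 0
  · simp [hn]
  · simp [hn]

lemma xb_snd (p : ℝ) (F : Finset ℕ) (c : ℕ → ℝ) (i n : ℕ) :
    (xb p F c).2 (i, n) = -(if i ∈ F ∧ n = 0 then c i else 0) := by
  simp only [xb, ZeroAtInftyContinuousMap.neg_apply, sum_dl_apply]

lemma fb_fst (a : ℝ) (F : Finset ℕ) (c : ℕ → ℝ) : fb a F c (1, 0) = a := by
  simp [fb, ev_apply]

lemma fb_dl (a : ℝ) (F : Finset ℕ) (c : ℕ → ℝ) (i n : ℕ) :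
    fb a F c (0, dl (i, n)) = if i ∈ F ∧ n = 0 then c i else 0 := by
  simp only [fb, add_apply, smul_apply, ContinuousLinearMap.coe_fst', smul_eq_mul, mul_zero,
    zero_add]
  rw [_root_.sum_apply]
  simp only [smul_apply, ContinuousLinearMap.comp_apply, ContinuousLinearMap.coe_snd', ev_apply,
    dl_apply, smul_eq_mul, mul_ite, mul_one, mul_zero, Prod.mk.injEq]
  by_cases hn : n = 0
  · subst hn
    simp
  · simp [hn, eq_comm]

lemma inL_base (p a : ℝ) (F : Finset ℕ) (c : ℕ → ℝ) : InL (xb p F c) (fb a F c) := by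
  intro i n
  rw [xb_snd, xb_snd, fb_dl, fb_dl]
  by_cases hn : n = 0
  · subst hn
    simp
  · simp [hn]

lemma sv_base (p a : ℝ) (F : Finset ℕ) (c : ℕ → ℝ) (i : ℕ) :
    sv (xb p F c) (fb a F c) i = if i ∈ F then c i else 0 := by
  rw [sv, xb_snd, fb_dl]
  by_cases hi : i ∈ F
  · simp [hi]
  · simp [hi]

lemma lower_base (k : ℕ) :
    Lower k (xb (-rr k) (Finset.range (NN k)) sg) (fb (-rr k) (Finset.range (NN k)) sg) := by
  refine ⟨inL_base _ _ _ _, rfl, fb_fst _ _ _, fun i => ?_⟩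
  rw [sv_base]
  simp [tr]

lemma upper_base (k : ℕ) :
    Upper k (xb (1 + rr k) (Finset.range (NN k)) (fun i => sg i + if i = 0 then 1 else 0))
      (fb (1 + rr k) (Finset.range (NN k)) (fun i => sg i + if i = 0 then 1 else 0)) := by
  refine ⟨inL_base _ _ _ _, rfl, fb_fst _ _ _, fun i => ?_⟩
  rw [sv_base]
  simp only [Finset.mem_range, tr]
  by_cases hi : i < NN k
  · simp [hi]
  · have : i ≠ 0 := by
      rintro rfl
      exact hi (NN_pos k)
    simp [hi, this]

/-- perturbation vector -/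
def ux (i n : ℕ) : X := (0, dl (i, n) + dl (i, n + 1))

/-- perturbation functional -/
def vf (i n : ℕ) : X →L[ℝ] ℝ := (ev (i, n) - ev (i, n + 1)).comp (ContinuousLinearMap.snd ℝ ℝ E)

lemma vf_apply (i n : ℕ) (x : X) : vf i n x = x.2 (i, n) - x.2 (i, n + 1) := by
  simp [vf, ev_apply]

lemma f_ux (f : X →L[ℝ] ℝ) (i n : ℕ) : f (ux i n) = f (0, dl (i, n)) + f (0, dl (i, n + 1)) := by
  have h : ux i n = ((0, dl (i, n)) : X) + (0, dl (i, n + 1)) := by
    ext1
    · simp [ux]
    · simp [ux]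
  rw [h, map_add]

lemma vf_ux (i n : ℕ) : vf i n (ux i n) = 0 := by
  rw [vf_apply]
  simp [ux, dl_apply]

lemma inL_pert (i n : ℕ) : InL (ux i n) (vf i n) := by
  intro j m
  rw [vf_apply, vf_apply]
  simp only [ux, ZeroAtInftyContinuousMap.add_apply, dl_apply, Prod.mk.injEq]
  by_cases hj : j = i
  · subst hj
    simp only [true_and]
    split_ifs <;> first | contradiction | omega | norm_num
  · simp [hj, Ne.symm hj, eq_comm]

lemma sv_pert (i n j : ℕ) : sv (ux i n) (vf i n) j = 0 := by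
  rw [sv, vf_apply]
  simp only [ux, ZeroAtInftyContinuousMap.add_apply, dl_apply, Prod.mk.injEq]
  by_cases hj : j = i
  · subst hj
    simp only [true_and]
    split_ifs <;> first | contradiction | omega | norm_num
  · simp [hj, Ne.symm hj, eq_comm]

lemma lower_pert (k : ℕ) {x : X} {f : X →L[ℝ] ℝ} (h : Lower k x f) (i n : ℕ) (t : ℝ) :
    Lower k (x + t • ux i n) (f + t • vf i n) := by
  obtain ⟨hL, h1, h2, h3⟩ := h
  refine ⟨hL.add ((inL_pert i n).smul t), ?_, ?_, fun j => ?_⟩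
  · simp [h1, ux]
  · simp [h2, vf_apply]
  · rw [sv_add, sv_smul, sv_pert, h3]
    ring

/-- Anything monotonically related to `A0` satisfies the local relation. -/
lemma inL_of_rel {x : X} {f : X →L[ℝ] ℝ} (h : ∀ p ∈ A0, 0 ≤ (f - p.2) (x - p.1)) : InL x f := by
  intro i n
  have hb := lower_base 0
  set x0 := xb (-rr 0) (Finset.range (NN 0)) sg with hx0
  set f0 := fb (-rr 0) (Finset.range (NN 0)) sg with hf0
  set c := (f - f0) (x - x0) with hc
  set B := (f - f0) (ux i n) + vf i n (x - x0) with hB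
  have hexp : ∀ t : ℝ, 0 ≤ c - t * B := by
    intro t
    have h1 := h (x0 + t • ux i n, f0 + t • vf i n) ⟨0, Or.inl (lower_pert 0 hb i n t)⟩
    have h2 : (f - (f0 + t • vf i n)) (x - (x0 + t • ux i n)) = c - t * B + t ^ 2 * vf i n (ux i n) := by
      have e1 : f - (f0 + t • vf i n) = (f - f0) - t • vf i n := by abel
      have e2 : x - (x0 + t • ux i n) = (x - x0) - t • ux i n := by abel
      have e3 : ∀ g : X →L[ℝ] ℝ, g (x - x0 - t • ux i n) = g (x - x0) - t * g (ux i n) := by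
        intro g
        rw [map_sub, map_smul, smul_eq_mul]
      rw [e1, e2, sub_apply (f - f0), smul_apply, smul_eq_mul, e3, e3, hc, hB]
      ring
    simp only at h1
    rw [h2, vf_ux] at h1
    linarith
  have hB0 : B = 0 := by
    by_contra hne
    have h1 := hexp ((c + 1) / B)
    rw [div_mul_cancel₀ _ hne] at h1
    linarith
  have h1 : (f0) (ux i n) + vf i n x0 = 0 := by
    rw [f_ux, vf_apply]
    have := hb.1 i n
    linarith
  rw [hB, sub_apply, map_sub, f_ux f, vf_apply i n x] at hB0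
  linarith

/-- limit inequality from below -/
lemma lower_limit {x : X} {f : X →L[ℝ] ℝ} (h : ∀ p ∈ A0, 0 ≤ (f - p.2) (x - p.1)) (M : ℕ) :
    ∑ i ∈ Finset.range M, (sv x f i - sg i) ^ 2 ≤ x.1 * f (1, 0) := by
  have hL := inL_of_rel h
  have hlim : Tendsto (fun k => (x.1 + rr k) * (f (1, 0) + rr k)) atTop
      (𝓝 ((x.1 + 0) * (f (1, 0) + 0))) :=
    (tendsto_const_nhds.add tendsto_rr).mul (tendsto_const_nhds.add tendsto_rr)
  rw [add_zero, add_zero] at hlim
  refine ge_of_tendsto hlim ?_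
  filter_upwards [eventually_ge_atTop M] with k hk
  have hb := lower_base k
  set x0 := xb (-rr k) (Finset.range (NN k)) sg with hx0
  set f0 := fb (-rr k) (Finset.range (NN k)) sg with hf0
  have h1 := h (x0, f0) ⟨k, Or.inl hb⟩
  simp only at h1
  obtain ⟨hL0, h2, h3, h4⟩ := hb
  have h5 := (hL.sub hL0).key.2
  simp only [sv_sub, h4, Prod.fst_sub, h2] at h5
  have h9 : (f - f0) (1, 0) = f (1, 0) - f0 (1, 0) := rfl
  have h6 := sum_le_hasSum (Finset.range M) (fun i _ => sq_nonneg _) h5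
  rw [h9, h3] at h6
  have h7 : ∑ i ∈ Finset.range M, (sv x f i - sg i) ^ 2
      = ∑ i ∈ Finset.range M, (sv x f i - tr k i) ^ 2 := by
    refine Finset.sum_congr rfl fun i hi => ?_
    have : i < NN k := by
      have h8 : k < NN k := by
        unfold NN
        exact lt_of_lt_of_le (Nat.lt_succ_self k) (Nat.lt_pow_self (by norm_num)).le
      have := Finset.mem_range.1 hi
      omega
    simp [tr, this]
  rw [h7]
  refine h6.trans ?_
  linarith

/-- limit inequality from above -/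
lemma upper_limit {x : X} {f : X →L[ℝ] ℝ} (h : ∀ p ∈ A0, 0 ≤ (f - p.2) (x - p.1)) (M : ℕ) :
    ∑ i ∈ Finset.range M, (sv x f i - (sg i + if i = 0 then 1 else 0)) ^ 2
      ≤ (x.1 - 1) * (f (1, 0) - 1) := by
  have hL := inL_of_rel h
  have hlim : Tendsto (fun k => (x.1 - 1 - rr k) * (f (1, 0) - 1 - rr k)) atTop
      (𝓝 ((x.1 - 1 - 0) * (f (1, 0) - 1 - 0))) :=
    (tendsto_const_nhds.sub tendsto_rr).mul (tendsto_const_nhds.sub tendsto_rr)
  rw [sub_zero, sub_zero] at hlim
  refine ge_of_tendsto hlim ?_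
  filter_upwards [eventually_ge_atTop M] with k hk
  have hb := upper_base k
  set x0 := xb (1 + rr k) (Finset.range (NN k)) (fun i => sg i + if i = 0 then 1 else 0) with hx0
  set f0 := fb (1 + rr k) (Finset.range (NN k)) (fun i => sg i + if i = 0 then 1 else 0) with hf0
  have h1 := h (x0, f0) ⟨k, Or.inr hb⟩
  simp only at h1
  obtain ⟨hL0, h2, h3, h4⟩ := hb
  have h5 := (hL.sub hL0).key.2
  simp only [sv_sub, h4, Prod.fst_sub, h2] at h5
  have h9 : (f - f0) (1, 0) = f (1, 0) - f0 (1, 0) := rfl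
  have h6 := sum_le_hasSum (Finset.range M) (fun i _ => sq_nonneg _) h5
  rw [h9, h3] at h6
  have h7 : ∑ i ∈ Finset.range M, (sv x f i - (sg i + if i = 0 then 1 else 0)) ^ 2
      = ∑ i ∈ Finset.range M, (sv x f i - (tr k i + if i = 0 then 1 else 0)) ^ 2 := by
    refine Finset.sum_congr rfl fun i hi => ?_
    have : i < NN k := by
      have h8 : k < NN k := by
        unfold NN
        exact lt_of_lt_of_le (Nat.lt_succ_self k) (Nat.lt_pow_self (by norm_num)).le
      have := Finset.mem_range.1 hi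
      omega
    simp [tr, this]
  rw [h7]
  refine h6.trans ?_
  linarith

/-- the gap lemma -/
lemma gap (s : ℕ → ℝ) (hs : Summable (fun i => |s i|)) (p a : ℝ)
    (h1 : ∀ M, ∑ i ∈ Finset.range M, (s i - sg i) ^ 2 ≤ p * a)
    (h2 : ∀ M, ∑ i ∈ Finset.range M, (s i - (sg i + if i = 0 then 1 else 0)) ^ 2
      ≤ (p - 1) * (a - 1)) :
    (p ≤ 0 ∧ a ≤ 0) ∨ (1 ≤ p ∧ 1 ≤ a) := by
  by_contra hcon
  rw [not_or, not_and_or, not_and_or, not_le, not_le, not_le, not_le] at hcon
  obtain ⟨hc1, hc2⟩ := hcon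
  have hpa : 0 ≤ p * a := by simpa using h1 0
  have hpa1 : 0 ≤ (p - 1) * (a - 1) := by simpa using h2 0
  have hp0 : 0 ≤ p := by
    rcases hc1 with h | h
    · exact h.le
    · by_contra hn
      push Not at hn
      nlinarith
  have ha0 : 0 ≤ a := by
    rcases hc1 with h | h
    · by_contra hn
      push Not at hn
      nlinarith
    · exact h.le
  have hp1 : p ≤ 1 := by
    rcases hc2 with h | h
    · exact h.le
    · by_contra hn
      push Not at hn
      nlinarith
  have ha1 : a ≤ 1 := by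
    rcases hc2 with h | h
    · by_contra hn
      push Not at hn
      nlinarith
    · exact h.le
  have hR : ∀ m, ∑ i ∈ Finset.range m, (s (i + 1) - sg (i + 1)) ^ 2 ≤ 0 := by
    intro m
    have e1 := h1 (m + 1)
    have e2 := h2 (m + 1)
    rw [Finset.sum_range_succ'] at e1 e2
    simp only [Nat.add_eq_zero_iff, one_ne_zero, and_false, if_false, add_zero, if_true,
      sg_zero] at e1 e2
    set R := ∑ i ∈ Finset.range m, (s (i + 1) - sg (i + 1)) ^ 2 with hRdef
    have hRn : 0 ≤ R := Finset.sum_nonneg fun _ _ => sq_nonneg _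
    set β := s 0 - 1 with hβ
    have e2' : R + (β - 1) ^ 2 ≤ (1 - p) * (1 - a) := by
      have : (s 0 - (1 + 1)) ^ 2 = (β - 1) ^ 2 := by rw [hβ]; ring
      rw [this] at e2
      linarith
    set u := (p + a) / 2 with hu
    have hu0 : 0 ≤ u := by positivity
    have hu1 : u ≤ 1 := by rw [hu]; linarith
    have e3 : R + β ^ 2 ≤ u ^ 2 := by
      have : p * a ≤ u ^ 2 := by rw [hu]; nlinarith [sq_nonneg (p - a)]
      linarith
    have e4 : R + (β - 1) ^ 2 ≤ (1 - u) ^ 2 := by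
      have : (1 - p) * (1 - a) ≤ (1 - u) ^ 2 := by rw [hu]; nlinarith [sq_nonneg (p - a)]
      linarith
    have e5 : β ≤ u := by
      have : β ^ 2 ≤ u ^ 2 := by linarith
      exact (abs_le_of_sq_le_sq' this hu0).2
    have e6 : u ≤ β := by
      have h3 : (β - 1) ^ 2 ≤ (1 - u) ^ 2 := by linarith
      have h4 := (abs_le_of_sq_le_sq' h3 (by linarith)).1
      linarith
    have e7 : β = u := le_antisymm e5 e6
    rw [e7] at e3
    linarith
  have hEq : ∀ i, s (i + 1) = sg (i + 1) := by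
    intro i
    have h3 := hR (i + 1)
    rw [Finset.sum_range_succ] at h3
    have h4 : 0 ≤ ∑ i ∈ Finset.range i, (s (i + 1) - sg (i + 1)) ^ 2 :=
      Finset.sum_nonneg fun _ _ => sq_nonneg _
    have h5 : (s (i + 1) - sg (i + 1)) ^ 2 ≤ 0 := by linarith
    have h6 : s (i + 1) - sg (i + 1) = 0 := by
      have := le_antisymm h5 (sq_nonneg _)
      exact pow_eq_zero_iff (two_ne_zero) |>.1 this
    linarith
  have h3 : Summable (fun i => s (i + 1)) := (summable_nat_add_iff 1).2 hs.of_abs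
  simp only [hEq] at h3
  exact not_summable_sg ((summable_nat_add_iff 1).1 h3)

/-- Consequences of being monotonically related to all of `A0`. -/
lemma rel_gap {x : X} {f : X →L[ℝ] ℝ} (h : ∀ p ∈ A0, 0 ≤ (f - p.2) (x - p.1)) :
    (x.1 ≤ 0 ∧ f (1, 0) ≤ 0) ∨ (1 ≤ x.1 ∧ 1 ≤ f (1, 0)) :=
  gap (sv x f) (inL_of_rel h).key.1 x.1 (f (1, 0)) (lower_limit h) (upper_limit h)

/-- monotone sets -/
def Mono (M : Set (X × (X →L[ℝ] ℝ))) : Prop := ∀ p ∈ M, ∀ q ∈ M, 0 ≤ (p.2 - q.2) (p.1 - q.1)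

lemma exists_maximal : ∃ M : Set (X × (X →L[ℝ] ℝ)), A0 ⊆ M ∧ Mono M ∧
    ∀ (x : X) (f : X →L[ℝ] ℝ), (∀ q ∈ M, 0 ≤ (f - q.2) (x - q.1)) → (x, f) ∈ M := by
  obtain ⟨M, hM1, hM2⟩ := zorn_subset_nonempty {M : Set (X × (X →L[ℝ] ℝ)) | Mono M} (by
    intro c hc hchain _
    refine ⟨⋃₀ c, ?_, fun s hs => Set.subset_sUnion_of_mem hs⟩
    intro p hp q hq
    obtain ⟨s, hs, hps⟩ := hp
    obtain ⟨t, ht, hqt⟩ := hq
    rcases hchain.total hs ht with hst | hst
    · exact hc ht p (hst hps) q hqt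
    · exact hc hs p hps q (hst hqt)) A0 (fun p hp q hq => A0_mono hp hq)
  refine ⟨M, hM1, hM2.prop, fun x f hf => ?_⟩
  have hmono : Mono (insert (x, f) M) := by
    intro p hp q hq
    rcases hp with rfl | hp
    · rcases hq with rfl | hq
      · simp
      · exact hf q hq
    · rcases hq with rfl | hq
      · rw [rel_symm]
        exact hf p hp
      · exact hM2.prop p hp q hq
  have := hM2.le_of_ge hmono (Set.subset_insert _ _)
  exact this (Set.mem_insert _ _)

/-- the data of the example: a maximally monotone operator with a gap in its domain. -/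
theorem main_data : ∃ A : X → Set (X →L[ℝ] ℝ),
    ((∀ x y : X, ∀ xs ∈ A x, ∀ ys ∈ A y, 0 ≤ (xs - ys) (x - y)) ∧
      (∀ (x : X) (xs : X →L[ℝ] ℝ),
        (∀ y : X, ∀ ys ∈ A y, 0 ≤ (xs - ys) (x - y)) → xs ∈ A x)) ∧
    (∀ x : X, ∀ xs ∈ A x, x.1 ≤ 0 ∨ 1 ≤ x.1) ∧
    (∃ x : X, x.1 ≤ 0 ∧ (A x).Nonempty) ∧
    (∃ x : X, 1 ≤ x.1 ∧ (A x).Nonempty) ∧
    (∀ y : X, y.1 < 1 / 2 → ∀ ys ∈ A y,
      0 ≤ ((8 : ℝ) • ContinuousLinearMap.fst ℝ ℝ E - ys) (((1 / 4, 0) : X) - y)) := by
  obtain ⟨M, hM0, hM1, hM2⟩ := exists_maximal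
  refine ⟨fun x => {f | (x, f) ∈ M}, ⟨?_, ?_⟩, ?_, ?_, ?_, ?_⟩
  · intro x y f hf g hg
    exact hM1 (x, f) hf (y, g) hg
  · intro x f hf
    refine hM2 x f ?_
    rintro ⟨y, g⟩ hq
    exact hf y g hq
  · intro y g hg
    have hrel : ∀ p ∈ A0, 0 ≤ (g - p.2) (y - p.1) := fun p hp => hM1 (y, g) hg p (hM0 hp)
    rcases rel_gap hrel with ⟨hp, _⟩ | ⟨hp, _⟩
    · exact Or.inl hp
    · exact Or.inr hp
  · refine ⟨_, ?_, _, hM0 ⟨0, Or.inl (lower_base 0)⟩⟩
    show -rr 0 ≤ 0
    have := rr_pos 0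
    linarith
  · refine ⟨_, ?_, _, hM0 ⟨0, Or.inr (upper_base 0)⟩⟩
    show 1 ≤ 1 + rr 0
    have := rr_pos 0
    linarith
  · intro y hy g hg
    have hrel : ∀ p ∈ A0, 0 ≤ (g - p.2) (y - p.1) := fun p hp => hM1 (y, g) hg p (hM0 hp)
    have hL := inL_of_rel hrel
    rcases rel_gap hrel with ⟨hp, ha⟩ | ⟨hp, _⟩
    · have hlow := lower_limit hrel
      have hkey := hL.key.2
      have hbound : ∀ m : ℕ, ∑ i ∈ Finset.range m, (sv y g i) ^ 2
          ≤ 2 - 8 * y.1 - g (1, 0) / 4 + y.1 * g (1, 0) := by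
        intro m
        have h1 := hlow m
        have h2 := sum_sg_sq_range m
        have h3 := Finset.sum_mul_sq_le_sq_mul_sq (Finset.range m) (fun i => sv y g i - sg i) sg
        set S := ∑ i ∈ Finset.range m, (sv y g i - sg i) ^ 2 with hS
        set T := ∑ i ∈ Finset.range m, (sg i) ^ 2 with hT
        set C := ∑ i ∈ Finset.range m, (sv y g i - sg i) * sg i with hC
        have h4 : ∑ i ∈ Finset.range m, (sv y g i) ^ 2 = S + 2 * C + T := by
          rw [hS, hC, hT, Finset.mul_sum, ← Finset.sum_add_distrib, ← Finset.sum_add_distrib]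
          refine Finset.sum_congr rfl fun i _ => ?_
          ring
        have hS0 : 0 ≤ S := Finset.sum_nonneg fun _ _ => sq_nonneg _
        have hT0 : 0 ≤ T := Finset.sum_nonneg fun _ _ => sq_nonneg _
        rw [h4]
        have h5 : C ^ 2 ≤ 2 * (y.1 * g (1, 0)) := by
          have : S * T ≤ (y.1 * g (1, 0)) * 2 := by
            have h6 : 0 ≤ y.1 * g (1, 0) := hS0.trans h1
            exact mul_le_mul h1 h2 hT0 h6
          linarith
        have h6 : 2 * C ≤ -8 * y.1 - g (1, 0) / 4 := by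
          have h7 : 0 ≤ -8 * y.1 - g (1, 0) / 4 := by linarith
          have h8 : (2 * C) ^ 2 ≤ (-8 * y.1 - g (1, 0) / 4) ^ 2 := by
            nlinarith [sq_nonneg (-8 * y.1 + g (1, 0) / 4)]
          exact (abs_le_of_sq_le_sq' h8 h7).2
        linarith
      have hle : y.1 * g (1, 0) - g y ≤ 2 - 8 * y.1 - g (1, 0) / 4 + y.1 * g (1, 0) :=
        le_of_tendsto' hkey.tendsto_sum_nat hbound
      have e1 : ((8 : ℝ) • ContinuousLinearMap.fst ℝ ℝ E - g) (((1 / 4, 0) : X) - y)
          = 2 - 8 * y.1 - g (1, 0) / 4 + g y := by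
        have h5 : g ((1 / 4, 0) : X) = g (1, 0) / 4 := by
          have : ((1 / 4, 0) : X) = (1 / 4 : ℝ) • ((1, 0) : X) := by
            ext1
            · simp
            · simp
          rw [this, map_smul, smul_eq_mul]
          ring
        rw [map_sub, sub_apply, sub_apply, h5]
        simp only [smul_apply, ContinuousLinearMap.coe_fst', smul_eq_mul]
        ring
      rw [e1]
      linarith
    · linarith

theorem main : ∃ A : X → Set (X →L[ℝ] ℝ),
    ((∀ x y : X, ∀ xs ∈ A x, ∀ ys ∈ A y, 0 ≤ (xs - ys) (x - y)) ∧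
      (∀ (x : X) (xs : X →L[ℝ] ℝ),
        (∀ y : X, ∀ ys ∈ A y, 0 ≤ (xs - ys) (x - y)) → xs ∈ A x)) ∧
    ∃ U : Set X, IsOpen U ∧ Convex ℝ U ∧ (∃ y ∈ U, (A y).Nonempty) ∧
      ∃ x ∈ U, ∃ xs : X →L[ℝ] ℝ,
        (∀ y ∈ U, ∀ ys ∈ A y, 0 ≤ (xs - ys) (x - y)) ∧ xs ∉ A x := by
  obtain ⟨A, hA, hgap, ⟨y0, hy0, hne⟩, _, hrel⟩ := main_data
  refine ⟨A, hA, {x | x.1 < 1 / 2}, ?_, ?_, ?_, ((1 / 4, 0) : X), ?_,
    (8 : ℝ) • ContinuousLinearMap.fst ℝ ℝ E, ?_, ?_⟩
  · exact isOpen_lt continuous_fst continuous_const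
  · exact convex_halfSpace_lt (LinearMap.isLinear (LinearMap.fst ℝ ℝ E)) (1 / 2)
  · refine ⟨y0, ?_, hne⟩
    show y0.1 < 1 / 2
    linarith
  · show (1 / 4 : ℝ) < 1 / 2
    norm_num
  · intro y hy g hg
    exact hrel y hy g hg
  · intro hmem
    rcases hgap _ _ hmem with h | h
    · have : (1 / 4 : ℝ) ≤ 0 := h
      norm_num at this
    · have : (1 : ℝ) ≤ 1 / 4 := h
      norm_num at this

end

end Pool.Agent.Helper89.FPV
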