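import Mathlib

/-!
# Factors of the lower central series
-/

namespace Pool.Agent.Helper89

open Subgroup
open scoped commutatorElement

/-- The lower central factor `γ_{i+1}(G) / γ_{i+2}(G)` (Mathlib's lower central series starts with
`(⊤ : Subgroup G).lowerCentralSeries 0 = ⊤ = γ_1(G)`). -/
abbrev lcFactor (G : Type*) [Group G] (i : ℕ) : Type _ :=
  ↥((⊤ : Subgroup G).lowerCentralSeries i) ⧸
    ((⊤ : Subgroup G).lowerCentralSeries (i + 1)).subgroupOf
      ((⊤ : Subgroup G).lowerCentralSeries i)

section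

variable {G K : Type*} [Group G] [Group K]

theorem lcs_commutator_mem {i : ℕ} {x y : G} (hx : x ∈ (⊤ : Subgroup G).lowerCentralSeries i) :
    ⁅x, y⁆ ∈ (⊤ : Subgroup G).lowerCentralSeries (i + 1) := by
  rw [Subgroup.lowerCentralSeries_succ]
  exact commutator_mem_commutator hx (mem_top y)

theorem lcFactor_mul_comm (i : ℕ) (a b : lcFactor G i) : a * b = b * a := by
  induction a using QuotientGroup.induction_on with
  | H a =>
    induction b using QuotientGroup.induction_on with
    | H b =>
      rw [← QuotientGroup.mk_mul, ← QuotientGroup.mk_mul, QuotientGroup.eq, mem_subgroupOf]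
      have : (((a * b)⁻¹ * (b * a) : ↥((⊤ : Subgroup G).lowerCentralSeries i)) : G) =
          ⁅(b⁻¹ : G), (a⁻¹ : G)⁆ := by
        rw [commutatorElement_def]
        simp only [Subgroup.coe_mul, Subgroup.coe_inv]
        group
      rw [this]
      exact lcs_commutator_mem (inv_mem b.2)

instance lcFactor.instCommGroup (i : ℕ) : CommGroup (lcFactor G i) :=
  { (inferInstance : Group (lcFactor G i)) with mul_comm := lcFactor_mul_comm i }

theorem map_lcs_le (f : G →* K) (i : ℕ) :
    (⊤ : Subgroup G).lowerCentralSeries i ≤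
      ((⊤ : Subgroup K).lowerCentralSeries i).comap f := by
  rw [← map_le_iff_le_comap, map_lowerCentralSeries]
  exact lowerCentralSeries_mono i le_top

theorem map_lcs_of_surjective (f : G →* K) (hf : Function.Surjective f) (i : ℕ) :
    ((⊤ : Subgroup G).lowerCentralSeries i).map f = (⊤ : Subgroup K).lowerCentralSeries i := by
  rw [map_lowerCentralSeries, map_top_of_surjective f hf]

/-- restriction of `f` to the `i`-th terms of the lower central series -/
def lcsMap (f : G →* K) (i : ℕ) :
    ↥((⊤ : Subgroup G).lowerCentralSeries i) →* ↥((⊤ : Subgroup K).lowerCentralSeries i) :=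
  (f.comp (Subgroup.subtype _)).codRestrict _ fun x => map_lcs_le f i x.2

theorem coe_lcsMap (f : G →* K) (i : ℕ) (x : ↥((⊤ : Subgroup G).lowerCentralSeries i)) :
    (lcsMap f i x : K) = f x := rfl

theorem lcsMap_surjective (f : G →* K) (hf : Function.Surjective f) (i : ℕ) :
    Function.Surjective (lcsMap f i) := by
  rintro ⟨y, hy⟩
  rw [← map_lcs_of_surjective f hf] at hy
  obtain ⟨x, hx, rfl⟩ := hy
  exact ⟨⟨x, hx⟩, rfl⟩

/-- the map induced by `f` on the `i`-th lower central factors -/
def lcFactorMap (f : G →* K) (i : ℕ) : lcFactor G i →* lcFactor K i :=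
  QuotientGroup.map _ _ (lcsMap f i) (by
    intro x hx
    rw [mem_comap, mem_subgroupOf, coe_lcsMap]
    exact map_lcs_le f (i + 1) (mem_subgroupOf.1 hx))

theorem lcFactorMap_mk (f : G →* K) (i : ℕ) (x : ↥((⊤ : Subgroup G).lowerCentralSeries i)) :
    lcFactorMap f i (QuotientGroup.mk x) = QuotientGroup.mk (lcsMap f i x) := rfl

theorem lcFactorMap_surjective (f : G →* K) (hf : Function.Surjective f) (i : ℕ) :
    Function.Surjective (lcFactorMap f i) := by
  intro y
  induction y using QuotientGroup.induction_on with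
  | H y =>
    obtain ⟨x, rfl⟩ := lcsMap_surjective f hf i y
    exact ⟨QuotientGroup.mk x, rfl⟩

/-- A surjection whose kernel lies in `γ_{i+2}` induces an isomorphism of the `i`-th factors. -/
theorem lcFactor_equiv_of_ker_le (f : G →* K) (hf : Function.Surjective f) (i : ℕ)
    (hk : f.ker ≤ (⊤ : Subgroup G).lowerCentralSeries (i + 1)) :
    Nonempty (lcFactor G i ≃* lcFactor K i) := by
  refine ⟨MulEquiv.ofBijective (lcFactorMap f i) ⟨?_, lcFactorMap_surjective f hf i⟩⟩
  rw [injective_iff_map_eq_one]
  intro x hx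
  induction x using QuotientGroup.induction_on with
  | H x =>
    rw [lcFactorMap_mk, QuotientGroup.eq_one_iff, mem_subgroupOf, coe_lcsMap,
      ← map_lcs_of_surjective f hf] at hx
    obtain ⟨y, hy, hxy⟩ := hx
    rw [QuotientGroup.eq_one_iff, mem_subgroupOf]
    have h1 : (x : G) * y⁻¹ ∈ f.ker := by
      rw [MonoidHom.mem_ker, map_mul, map_inv, hxy, mul_inv_cancel]
    have h2 := mul_mem (hk h1) hy
    rwa [inv_mul_cancel_right] at h2

theorem lcs_prod (i : ℕ) : (⊤ : Subgroup (G × K)).lowerCentralSeries i =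
    ((⊤ : Subgroup G).lowerCentralSeries i).prod ((⊤ : Subgroup K).lowerCentralSeries i) := by
  rw [← Subgroup.lowerCentralSeries_prod, top_prod_top]

/-- Lower central factors of a direct product. -/
theorem lcFactor_prod (i : ℕ) :
    Nonempty (lcFactor (G × K) i ≃* lcFactor G i × lcFactor K i) := by
  refine ⟨MulEquiv.ofBijective ((lcFactorMap (MonoidHom.fst G K) i).prod
    (lcFactorMap (MonoidHom.snd G K) i)) ⟨?_, ?_⟩⟩
  · rw [injective_iff_map_eq_one]
    intro x hx
    induction x using QuotientGroup.induction_on with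
    | H x =>
      rw [MonoidHom.prod_apply, lcFactorMap_mk, lcFactorMap_mk, Prod.mk_eq_one,
        QuotientGroup.eq_one_iff, QuotientGroup.eq_one_iff, mem_subgroupOf, mem_subgroupOf,
        coe_lcsMap, coe_lcsMap] at hx
      rw [QuotientGroup.eq_one_iff, mem_subgroupOf, lcs_prod]
      exact hx
  · rintro ⟨a, b⟩
    induction a using QuotientGroup.induction_on with
    | H a =>
      induction b using QuotientGroup.induction_on with
      | H b =>
        have hab : ((a : G), (b : K)) ∈ (⊤ : Subgroup (G × K)).lowerCentralSeries i := by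
          rw [lcs_prod]
          exact ⟨a.2, b.2⟩
        exact ⟨QuotientGroup.mk ⟨((a : G), (b : K)), hab⟩, rfl⟩

theorem iInf_lcs_prod (hG : ⨅ i, (⊤ : Subgroup G).lowerCentralSeries i = ⊥)
    (hK : ⨅ i, (⊤ : Subgroup K).lowerCentralSeries i = ⊥) :
    ⨅ i, (⊤ : Subgroup (G × K)).lowerCentralSeries i = ⊥ := by
  rw [eq_bot_iff]
  rintro ⟨x, y⟩ hxy
  rw [mem_iInf] at hxy
  have h1 : x ∈ ⨅ i, (⊤ : Subgroup G).lowerCentralSeries i := by
    rw [mem_iInf]; intro i
    have := hxy i
    rw [lcs_prod] at this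
    exact this.1
  have h2 : y ∈ ⨅ i, (⊤ : Subgroup K).lowerCentralSeries i := by
    rw [mem_iInf]; intro i
    have := hxy i
    rw [lcs_prod] at this
    exact this.2
  rw [hG, mem_bot] at h1
  rw [hK, mem_bot] at h2
  rw [mem_bot, h1, h2]
  rfl

end

section Quot

variable (G : Type*) [Group G]

/-- The intersection of the lower central series. -/
def gammaOmega : Subgroup G := ⨅ i, (⊤ : Subgroup G).lowerCentralSeries i

instance : (gammaOmega G).Normal := by
  unfold gammaOmega
  exact Subgroup.normal_iInf_normal fun i => inferInstance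

theorem iInf_lcs_quot :
    ⨅ i, (⊤ : Subgroup (G ⧸ gammaOmega G)).lowerCentralSeries i = ⊥ := by
  rw [eq_bot_iff]
  intro q hq
  rw [mem_iInf] at hq
  obtain ⟨x, rfl⟩ := QuotientGroup.mk'_surjective (gammaOmega G) q
  rw [mem_bot]
  have hx : x ∈ gammaOmega G := by
    unfold gammaOmega
    rw [mem_iInf]
    intro i
    have h1 := hq i
    rw [← map_lcs_of_surjective (QuotientGroup.mk' (gammaOmega G))
      (QuotientGroup.mk'_surjective _)] at h1
    obtain ⟨y, hy, hxy⟩ := h1
    have h2 : y⁻¹ * x ∈ gammaOmega G := by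
      rw [← QuotientGroup.eq]
      exact hxy
    have h3 : y⁻¹ * x ∈ (⊤ : Subgroup G).lowerCentralSeries i := by
      unfold gammaOmega at h2
      rw [mem_iInf] at h2
      exact h2 i
    have := mul_mem hy h3
    rwa [mul_inv_cancel_left] at this
  exact (QuotientGroup.eq_one_iff x).2 hx

theorem lcFactor_quot (i : ℕ) :
    Nonempty (lcFactor G i ≃* lcFactor (G ⧸ gammaOmega G) i) := by
  apply lcFactor_equiv_of_ker_le (QuotientGroup.mk' (gammaOmega G))
    (QuotientGroup.mk'_surjective _)
  rw [QuotientGroup.ker_mk']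
  unfold gammaOmega
  exact iInf_le _ (i + 1)

end Quot

section Absorb

/-- Absorption: an abelian group mapping onto `ℤ^(ℕ)` absorbs `ℤ^(ℕ)`. -/
theorem absorb_add (A : Type*) [AddCommGroup A] (p : A →+ (ℕ →₀ ℤ))
    (hp : Function.Surjective p) : Nonempty (A × (ℕ →₀ ℤ) ≃+ A) := by
  obtain ⟨s, hs⟩ := Module.projective_lifting_property (p.toIntLinearMap)
    (LinearMap.id : (ℕ →₀ ℤ) →ₗ[ℤ] (ℕ →₀ ℤ)) hp
  have hs' : ∀ b, p (s b) = b := fun b => LinearMap.congr_fun hs b
  let e1 : A ≃+ p.ker × (ℕ →₀ ℤ) :=
    { toFun := fun a => (⟨a - s (p a), by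
        rw [AddMonoidHom.mem_ker, map_sub, hs', sub_self]⟩, p a)
      invFun := fun x => x.1 + s x.2
      left_inv := fun a => by simp
      right_inv := fun x => by
        have h0 : p x.1 = 0 := x.1.2
        ext <;> simp [hs', h0]
      map_add' := fun a b => by
        ext
        · simp; abel
        · simp }
  let e2 : (ℕ →₀ ℤ) × (ℕ →₀ ℤ) ≃+ (ℕ →₀ ℤ) :=
    (Finsupp.sumFinsuppAddEquivProdFinsupp (M := ℤ) (α := ℕ) (β := ℕ)).symm.trans
      (Finsupp.domCongr (Equiv.natSumNatEquivNat))
  exact ⟨(e1.prodCongr (AddEquiv.refl _)).trans ((AddEquiv.prodAssoc).trans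
    (((AddEquiv.refl _).prodCongr e2).trans e1.symm))⟩

theorem absorb_mul (A B : Type*) [CommGroup A] [CommGroup B]
    (hB : Nonempty (B ≃* Multiplicative (ℕ →₀ ℤ))) (p : A →* B)
    (hp : Function.Surjective p) : Nonempty (A × B ≃* A) := by
  obtain ⟨e⟩ := hB
  let p' : Additive A →+ (ℕ →₀ ℤ) := MonoidHom.toAdditiveLeft (e.toMonoidHom.comp p)
  have hp' : Function.Surjective p' := by
    intro b
    obtain ⟨a, ha⟩ := (e.surjective.comp hp) (Multiplicative.ofAdd b)
    exact ⟨Additive.ofMul a, congrArg Multiplicative.toAdd ha⟩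
  obtain ⟨f⟩ := absorb_add (Additive A) p' hp'
  let e' : Additive B ≃+ (ℕ →₀ ℤ) := MulEquiv.toAdditiveLeft e
  let g : Additive A × Additive B ≃+ Additive A :=
    ((AddEquiv.refl (Additive A)).prodCongr e').trans f
  refine ⟨{ toFun := fun x => (g (Additive.ofMul x.1, Additive.ofMul x.2)).toMul
            invFun := fun a => ((g.symm (Additive.ofMul a)).1.toMul,
              (g.symm (Additive.ofMul a)).2.toMul)
            left_inv := fun x => by simp
            right_inv := fun a => by simp
            map_mul' := fun x y => by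
              have := map_add g (Additive.ofMul x.1, Additive.ofMul x.2)
                (Additive.ofMul y.1, Additive.ofMul y.2)
              exact congrArg Additive.toMul this }⟩

end Absorb

end Pool.Agent.Helper89
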