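import Mathlib

/-!
# Logarithms of unipotent elements of a ℚ-algebra
-/

namespace Pool.Agent.Helper89

variable {A : Type*} [Ring A] [Algebra ℚ A]

/-- `exp a ∈ ℚ[a]`. -/
theorem exp_mem_adjoin (a : A) : IsNilpotent.exp a ∈ Algebra.adjoin ℚ {a} := by
  rw [IsNilpotent.exp]
  refine Subalgebra.sum_mem _ fun i _ => ?_
  exact Subalgebra.smul_mem _ (Subalgebra.pow_mem _ (Algebra.self_mem_adjoin_singleton ℚ a) i) _

/-- `exp a = 1 + a + a ^ 2 * w` with `w ∈ ℚ[a]`. -/
theorem exp_eq_quad (a : A) (ha : IsNilpotent a) :
    ∃ w ∈ Algebra.adjoin ℚ {a}, IsNilpotent.exp a = 1 + a + a ^ 2 * w := by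
  obtain ⟨N, hN⟩ := ha
  have h2 : a ^ (N + 2) = 0 := pow_eq_zero_of_le (by omega) hN
  refine ⟨∑ i ∈ Finset.range N, ((i + 2).factorial : ℚ)⁻¹ • a ^ i, ?_, ?_⟩
  · refine Subalgebra.sum_mem _ fun i _ => ?_
    exact Subalgebra.smul_mem _ (Subalgebra.pow_mem _ (Algebra.self_mem_adjoin_singleton ℚ a) i) _
  · rw [IsNilpotent.exp_eq_sum h2, Finset.sum_range_succ', Finset.sum_range_succ', Finset.mul_sum]
    have e1 : ((0 + 1).factorial : ℚ)⁻¹ • a ^ (0 + 1) = a := by simp
    have e0 : ((0).factorial : ℚ)⁻¹ • a ^ 0 = 1 := by simp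
    rw [e1, e0]
    have : ∀ i : ℕ, a ^ 2 * (((i + 2).factorial : ℚ)⁻¹ • a ^ i) =
        ((i + 1 + 1).factorial : ℚ)⁻¹ • a ^ (i + 1 + 1) := by
      intro i
      rw [mul_smul_comm, ← pow_add]
      congr 2
      omega
    simp only [this]
    abel

theorem log_exists_aux (N : ℕ) : ∀ x : A, (x - 1) ^ N = 0 →
    ∃ xi ∈ Algebra.adjoin ℚ {x}, IsNilpotent xi ∧ IsNilpotent.exp xi = x := by
  induction N using Nat.strong_induction_on with
  | _ N ih =>
    intro x hx
    rcases Nat.lt_or_ge N 2 with hN | hN
    · refine ⟨0, Subalgebra.zero_mem _, IsNilpotent.zero, ?_⟩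
      rw [IsNilpotent.exp_zero]
      interval_cases N
      · rw [pow_zero] at hx
        have : Subsingleton A := subsingleton_of_zero_eq_one hx.symm
        exact Subsingleton.elim _ _
      · rw [pow_one] at hx
        exact (sub_eq_zero.1 hx).symm
    · set nu := x - 1 with hnu
      have hnil : IsNilpotent nu := ⟨N, hx⟩
      have hnumem : nu ∈ Algebra.adjoin ℚ {x} := by
        rw [hnu]
        exact Subalgebra.sub_mem _ (Algebra.self_mem_adjoin_singleton ℚ x) (Subalgebra.one_mem _)
      have hle : Algebra.adjoin ℚ {nu} ≤ Algebra.adjoin ℚ {x} := by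
        apply Algebra.adjoin_le
        rintro _ rfl
        exact hnumem
      have hle' : Algebra.adjoin ℚ {-nu} ≤ Algebra.adjoin ℚ {x} := by
        apply Algebra.adjoin_le
        rintro _ rfl
        exact Subalgebra.neg_mem _ hnumem
      obtain ⟨w, hw, hexp⟩ := exp_eq_quad (-nu) hnil.neg
      have hcomm : Commute w nu := by
        have : Commute nu w := by
          apply Algebra.commute_of_mem_adjoin_singleton_of_commute hw
          exact (Commute.refl nu).neg_right
        exact this.symm
      set y := x * IsNilpotent.exp (-nu) with hy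
      have hxnu : x = 1 + nu := by rw [hnu]; abel
      have hy1 : y - 1 = nu ^ 2 * (w + nu * w - 1) := by
        rw [hy, hexp, hxnu]
        have e1 : (-nu) ^ 2 = nu ^ 2 := by rw [neg_sq]
        rw [e1]
        noncomm_ring
      have hcw : Commute (nu ^ 2) (w + nu * w - 1) := by
        have c1 : Commute (nu ^ 2) w := (hcomm.symm).pow_left 2
        have c2 : Commute (nu ^ 2) nu := (Commute.refl nu).pow_left 2
        exact ((c1.add_right (c2.mul_right c1))).sub_right (Commute.one_right _)
      have hpow : (y - 1) ^ (N - 1) = 0 := by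
        rw [hy1, hcw.mul_pow, ← pow_mul, pow_eq_zero_of_le (by omega) hx, zero_mul]
      obtain ⟨eta, heta, hetan, hexpeta⟩ := ih (N - 1) (by omega) y hpow
      have hymem : y ∈ Algebra.adjoin ℚ {x} :=
        Subalgebra.mul_mem _ (Algebra.self_mem_adjoin_singleton ℚ x) (hle' (exp_mem_adjoin _))
      have hetamem : eta ∈ Algebra.adjoin ℚ {x} := by
        have : Algebra.adjoin ℚ {y} ≤ Algebra.adjoin ℚ {x} := by
          apply Algebra.adjoin_le
          rintro _ rfl
          exact hymem
        exact this heta
      have hc : Commute nu eta := by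
        apply Algebra.commute_of_mem_adjoin_singleton_of_commute hetamem
        rw [hxnu]
        exact (Commute.one_right _).add_right (Commute.refl _)
      refine ⟨nu + eta, Subalgebra.add_mem _ hnumem hetamem, hc.isNilpotent_add hnil hetan, ?_⟩
      rw [IsNilpotent.exp_add_of_commute hc hnil hetan, hexpeta, hy]
      have hcx : Commute (IsNilpotent.exp nu) x := by
        apply Commute.symm
        apply Algebra.commute_of_mem_adjoin_singleton_of_commute (exp_mem_adjoin nu)
        rw [hxnu]
        exact (Commute.one_left _).add_left (Commute.refl _)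
      rw [← mul_assoc, hcx.eq, mul_assoc, IsNilpotent.exp_mul_exp_neg_self hnil, mul_one]

/-- A unipotent element of a `ℚ`-algebra has a nilpotent logarithm, which is a polynomial in it. -/
theorem log_exists {x : A} (hx : IsNilpotent (x - 1)) :
    ∃ xi ∈ Algebra.adjoin ℚ {x}, IsNilpotent xi ∧ IsNilpotent.exp xi = x := by
  obtain ⟨N, hN⟩ := hx
  exact log_exists_aux N x hN

theorem exp_inj_of_commute {P Q : A} (hc : Commute P Q) (hP : IsNilpotent P) (hQ : IsNilpotent Q)
    (h : IsNilpotent.exp P = IsNilpotent.exp Q) : P = Q := by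
  have hc' : Commute P (-Q) := hc.neg_right
  have hd : IsNilpotent (P + -Q) := hc'.isNilpotent_add hP hQ.neg
  have h1 : IsNilpotent.exp (P + -Q) = 1 := by
    rw [IsNilpotent.exp_add_of_commute hc' hP hQ.neg, h, IsNilpotent.exp_mul_exp_neg_self hQ]
  obtain ⟨w, hw, hexp⟩ := exp_eq_quad (P + -Q) hd
  set d := P + -Q with hdd
  have hcw : Commute d w := by
    exact Algebra.commute_of_mem_adjoin_singleton_of_commute hw (Commute.refl d)
  have h2 : d * (1 + d * w) = 0 := by
    have : 1 + d + d ^ 2 * w = 1 := by rw [← hexp, h1]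
    have h3 : d + d ^ 2 * w = 0 := by
      have := congrArg (fun z => z - 1) this
      simp only [sub_self] at this
      rw [← this]; abel
    rw [← h3]; noncomm_ring
  have hu : IsUnit (1 + d * w) := by
    have : IsNilpotent (d * w) := hcw.isNilpotent_mul_right hd
    exact this.isUnit_one_add
  have h0 : d = 0 := by
    obtain ⟨u, hu⟩ := hu
    rw [← hu] at h2
    have := congrArg (fun z => z * (↑u⁻¹ : A)) h2
    simpa [mul_assoc] using this
  rw [hdd] at h0
  have : P = Q := by
    have := congrArg (fun z => z + Q) h0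
    simpa using this
  exact this

theorem mem_adjoin_exp {P : A} (hP : IsNilpotent P) :
    P ∈ Algebra.adjoin ℚ {IsNilpotent.exp P} := by
  obtain ⟨P', hP', hn, he⟩ := log_exists (IsNilpotent.isNilpotent_exp_sub_one hP)
  have hc : Commute P P' := by
    apply Algebra.commute_of_mem_adjoin_singleton_of_commute hP'
    exact Algebra.commute_of_mem_adjoin_singleton_of_commute (exp_mem_adjoin P) (Commute.refl P)
  have : P = P' := exp_inj_of_commute hc hP hn he.symm
  rw [this, he]
  exact hP'

/-- `exp` is injective on nilpotent elements. -/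
theorem exp_inj {P Q : A} (hP : IsNilpotent P) (hQ : IsNilpotent Q)
    (h : IsNilpotent.exp P = IsNilpotent.exp Q) : P = Q := by
  apply exp_inj_of_commute _ hP hQ h
  have h1 := mem_adjoin_exp hP
  rw [h] at h1
  apply Commute.symm
  apply Algebra.commute_of_mem_adjoin_singleton_of_commute h1
  exact Algebra.commute_of_mem_adjoin_singleton_of_commute (exp_mem_adjoin Q) (Commute.refl Q)

/-- logarithms commute with everything the exponentials commute with -/
theorem commute_log {P c : A} (hP : IsNilpotent P) (h : Commute c (IsNilpotent.exp P)) :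
    Commute c P :=
  Algebra.commute_of_mem_adjoin_singleton_of_commute (mem_adjoin_exp hP) h

/-- The Heisenberg relation for logarithms: if `x = exp ξ`, `y = exp η`, `z = exp ζ`,
`x * y = z * y * x` and `z` commutes with `x` and `y`, then `ξ * η - η * ξ = ζ`. -/
theorem log_heisenberg {xi eta zeta : A} (hxi : IsNilpotent xi) (heta : IsNilpotent eta)
    (hzeta : IsNilpotent zeta)
    (h : IsNilpotent.exp xi * IsNilpotent.exp eta =
      IsNilpotent.exp zeta * IsNilpotent.exp eta * IsNilpotent.exp xi)
    (hzx : Commute (IsNilpotent.exp zeta) (IsNilpotent.exp xi))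
    (hzy : Commute (IsNilpotent.exp zeta) (IsNilpotent.exp eta)) :
    xi * eta - eta * xi = zeta := by
  set x := IsNilpotent.exp xi with hx
  set y := IsNilpotent.exp eta with hy
  set z := IsNilpotent.exp zeta with hz
  set y' := IsNilpotent.exp (-eta) with hy'
  set z' := IsNilpotent.exp (-zeta) with hz'
  have hyy' : y * y' = 1 := IsNilpotent.exp_mul_exp_neg_self heta
  have hy'y : y' * y = 1 := IsNilpotent.exp_neg_mul_exp_self heta
  have hz'z : z' * z = 1 := IsNilpotent.exp_neg_mul_exp_self hzeta
  -- commutation facts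
  have c_zeta_x : Commute x zeta := commute_log hzeta hzx.symm
  have c_zeta_y : Commute y zeta := commute_log hzeta hzy.symm
  have c_zeta_xi : Commute zeta xi := commute_log hxi c_zeta_x.symm
  -- `y x y' = z' x`
  have h1 : y * x * y' = z' * x := by
    have hc : Commute z' x := by
      have : Commute x z' := by
        apply Algebra.commute_of_mem_adjoin_singleton_of_commute (exp_mem_adjoin (-zeta))
        exact c_zeta_x.neg_right
      exact this.symm
    have : y * x = z' * (x * y) := by
      rw [h, ← mul_assoc, ← mul_assoc, hz'z, one_mul]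
    rw [this, mul_assoc, mul_assoc, hyy', mul_one]
  -- conjugation by `y` as a ring automorphism
  have hconj : IsNilpotent.exp (y * xi * y') = y * x * y' := by
    let u : Aˣ := ⟨y, y', hyy', hy'y⟩
    have hpow : ∀ k : ℕ, (y * xi * y') ^ k = y * xi ^ k * y' := by
      intro k
      induction k with
      | zero => simp [hyy']
      | succ k ih =>
        rw [pow_succ, ih, pow_succ]
        calc y * xi ^ k * y' * (y * xi * y') = y * xi ^ k * (y' * y) * xi * y' := by
              noncomm_ring
          _ = y * (xi ^ k * xi) * y' := by rw [hy'y]; noncomm_ring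
    obtain ⟨N, hN⟩ := hxi
    have hN' : (y * xi * y') ^ N = 0 := by rw [hpow, hN]; simp
    rw [hx, IsNilpotent.exp_eq_sum hN, IsNilpotent.exp_eq_sum hN']
    rw [Finset.mul_sum, Finset.sum_mul]
    refine Finset.sum_congr rfl fun i _ => ?_
    rw [hpow, mul_smul_comm, smul_mul_assoc]
  have hnilconj : IsNilpotent (y * xi * y') := by
    have hpow : ∀ k : ℕ, (y * xi * y') ^ k = y * xi ^ k * y' := by
      intro k
      induction k with
      | zero => simp [hyy']
      | succ k ih =>
        rw [pow_succ, ih, pow_succ]
        calc y * xi ^ k * y' * (y * xi * y') = y * xi ^ k * (y' * y) * xi * y' := by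
              noncomm_ring
          _ = y * (xi ^ k * xi) * y' := by rw [hy'y]; noncomm_ring
    obtain ⟨N, hN⟩ := hxi
    exact ⟨N, by rw [hpow, hN]; simp⟩
  have hc2 : Commute (-zeta) xi := c_zeta_xi.neg_left
  have h2 : y * xi * y' = -zeta + xi := by
    apply exp_inj hnilconj (hc2.isNilpotent_add hzeta.neg hxi)
    rw [hconj, h1, IsNilpotent.exp_add_of_commute hc2 hzeta.neg hxi]
  have h3 : y * xi = (-zeta + xi) * y := by
    rw [← h2, mul_assoc, hy'y, mul_one]
  -- the derivation `E a = ξ a - a ξ`
  let E : A → A := fun a => xi * a - a * xi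
  have hEy : E y = zeta * y := by
    change xi * y - y * xi = zeta * y
    rw [h3]; noncomm_ring
  have hEmul : ∀ a b : A, E (a * b) = E a * b + a * E b := by
    intro a b
    change xi * (a * b) - a * b * xi = (xi * a - a * xi) * b + a * (xi * b - b * xi)
    noncomm_ring
  have hEadd : ∀ a b : A, E (a + b) = E a + E b := by
    intro a b
    change xi * (a + b) - (a + b) * xi = (xi * a - a * xi) + (xi * b - b * xi)
    noncomm_ring
  have hEcomm : ∀ a ∈ Algebra.adjoin ℚ {y}, Commute y (E a) := by
    intro a ha
    induction ha using Algebra.adjoin_induction with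
    | mem a ha =>
      have : a = y := by simpa using ha
      rw [this, hEy]
      exact c_zeta_y.mul_right (Commute.refl y)
    | algebraMap r =>
      have : E (algebraMap ℚ A r) = 0 := by
        change xi * _ - _ * xi = 0
        rw [Algebra.commutes, sub_self]
      rw [this]
      exact Commute.zero_right y
    | add a b _ _ iha ihb =>
      rw [hEadd]; exact iha.add_right ihb
    | mul a b ha hb iha ihb =>
      rw [hEmul]
      have ca : Commute y a :=
        Algebra.commute_of_mem_adjoin_singleton_of_commute ha (Commute.refl y)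
      have cb : Commute y b :=
        Algebra.commute_of_mem_adjoin_singleton_of_commute hb (Commute.refl y)
      exact (iha.mul_right cb).add_right (ca.mul_right ihb)
  have hEeta : Commute (E eta) eta := by
    have := hEcomm eta (mem_adjoin_exp heta)
    exact commute_log heta this.symm
  have hEpow : ∀ k : ℕ, E (eta ^ (k + 1)) = ((k + 1 : ℕ) : ℚ) • (eta ^ k * E eta) := by
    intro k
    induction k with
    | zero => simp
    | succ k ih =>
      rw [pow_succ eta (k + 1), hEmul, ih, smul_mul_assoc, mul_assoc, hEeta.eq, ← mul_assoc,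
        ← pow_succ]
      push_cast
      rw [add_smul ((k : ℚ) + 1) 1, one_smul]
  have hEexp : E y = y * E eta := by
    obtain ⟨N, hN⟩ := heta
    have hN1 : eta ^ (N + 1) = 0 := pow_eq_zero_of_le (by omega) hN
    have hsmul : ∀ (r : ℚ) (a : A), E (r • a) = r • E a := by
      intro r a
      change xi * (r • a) - (r • a) * xi = r • (xi * a - a * xi)
      rw [mul_smul_comm, smul_mul_assoc, smul_sub]
    let Ehom : A →+ A := AddMonoidHom.mk' E hEadd
    have hs : E y = ∑ i ∈ Finset.range (N + 1), (i.factorial : ℚ)⁻¹ • E (eta ^ i) := by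
      have : E y = Ehom y := rfl
      rw [this, hy, IsNilpotent.exp_eq_sum hN1, map_sum]
      refine Finset.sum_congr rfl fun i _ => ?_
      exact hsmul _ _
    rw [hs, Finset.sum_range_succ']
    have h0 : E (eta ^ 0) = 0 := by
      change xi * eta ^ 0 - eta ^ 0 * xi = 0
      simp
    rw [h0, smul_zero, add_zero, hy, IsNilpotent.exp_eq_sum hN, Finset.sum_mul]
    refine Finset.sum_congr rfl fun i _ => ?_
    rw [hEpow, smul_smul, smul_mul_assoc]
    congr 1
    rw [Nat.factorial_succ]
    have : ((i : ℚ) + 1) ≠ 0 := by positivity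
    have : (i.factorial : ℚ) ≠ 0 := by positivity
    push_cast
    field_simp
  have h4 : y * E eta = y * zeta := by
    rw [← hEexp, hEy, c_zeta_y.eq]
  have h5 : E eta = zeta := by
    have := congrArg (fun a => y' * a) h4
    simpa [← mul_assoc, hy'y] using this
  exact h5

end Pool.Agent.Helper89
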