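import Pool.Agent.Helper89.Unip
import Pool.Agent.Helper89.Log
import Pool.Agent.Helper89.Alt

/-!
# Unitriangular relations cannot hold faithfully in matrix groups of small degree
-/

namespace Pool.Agent.Helper89

open Matrix

/-- The commutator relations of the elementary unitriangular matrices. -/
structure UTRel {H : Type*} [Group H] (t : ℕ → ℕ → H) : Prop where
  rel : ∀ a c b, a < c → c < b → t a c * t c b = t a b * t c b * t a c
  com : ∀ a b c d, a < b → c < d → b ≠ c → a ≠ d → Commute (t a b) (t c d)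

theorem pow_rel {G : Type*} [Group G] {x y z : G} (h : x * y = z * y * x) (hzx : Commute z x)
    (hzy : Commute z y) (p q : ℕ) : x ^ p * y ^ q = z ^ (p * q) * y ^ q * x ^ p := by
  have h1 : x * y * x⁻¹ = z * y := by rw [h]; group
  have h2 : ∀ q : ℕ, x * y ^ q * x⁻¹ = z ^ q * y ^ q := by
    intro q
    rw [← conj_pow, h1, hzy.mul_pow]
  have h3 : ∀ p : ℕ, x ^ p * y ^ q * (x ^ p)⁻¹ = z ^ (p * q) * y ^ q := by
    intro p
    induction p with
    | zero => simp
    | succ p ih =>
      have hc : Commute (z ^ (p * q)) x := hzx.pow_left _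
      calc x ^ (p + 1) * y ^ q * (x ^ (p + 1))⁻¹ = x * (x ^ p * y ^ q * (x ^ p)⁻¹) * x⁻¹ := by
            rw [pow_succ']; group
        _ = x * (z ^ (p * q) * y ^ q) * x⁻¹ := by rw [ih]
        _ = z ^ (p * q) * (x * y ^ q * x⁻¹) := by rw [← mul_assoc x, ← hc.eq]; group
        _ = z ^ (p * q) * (z ^ q * y ^ q) := by rw [h2]
        _ = z ^ ((p + 1) * q) * y ^ q := by rw [← mul_assoc, ← pow_add]; ring_nf
  rw [← h3 p]; group

theorem isNilpotent_pow_sub_one {A : Type*} [Ring A] {x : A} (h : IsNilpotent (x - 1)) (q : ℕ) :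
    IsNilpotent (x ^ q - 1) := by
  have e : x ^ q - 1 = (∑ i ∈ Finset.range q, x ^ i) * (x - 1) := (geom_sum_mul x q).symm
  rw [e]
  apply Commute.isNilpotent_mul_left _ h
  apply Commute.sum_left
  intro i _
  exact ((Commute.refl x).pow_left i).sub_right (Commute.one_right _)

/-- The rational case. -/
theorem rational_case {S : Type*} [CommRing S] [Algebra ℚ S] {n : ℕ} (m : ℕ) (hm : n * n < m)
    (Y : ℕ → ℕ → Matrix (Fin n) (Fin n) S)
    (hnil : ∀ a b, a < b → IsNilpotent (Y a b - 1))
    (hrel : ∀ a c b, a < c → c < b → Y a c * Y c b = Y a b * Y c b * Y a c)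
    (hcom : ∀ a b c d, a < b → c < d → b ≠ c → a ≠ d → Commute (Y a b) (Y c d)) :
    Y 0 (m + 1) = 1 := by
  have hlog : ∀ a b, a < b → ∃ xi : Matrix (Fin n) (Fin n) S, IsNilpotent xi ∧
      IsNilpotent.exp xi = Y a b := by
    intro a b hab
    obtain ⟨xi, -, h1, h2⟩ := log_exists (hnil a b hab)
    exact ⟨xi, h1, h2⟩
  choose L hLnil hLexp using hlog
  let u : ℕ → Matrix (Fin n) (Fin n) S := fun j => L 0 (j + 1) (by omega)
  let v : ℕ → Matrix (Fin n) (Fin n) S := fun c => L (c + 1) (c + 2) (by omega)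
  have hu : u m = 0 := by
    apply eq_zero_of_bracket_relations m hm u v
    intro c _ j _
    by_cases hcj : c = j
    · subst hcj
      rw [if_pos rfl]
      apply log_heisenberg (hLnil _ _ _) (hLnil _ _ _) (hLnil _ _ _)
      · rw [hLexp, hLexp, hLexp]
        exact hrel 0 (c + 1) (c + 2) (by omega) (by omega)
      · rw [hLexp, hLexp]
        exact hcom _ _ _ _ (by omega) (by omega) (by omega) (by omega)
      · rw [hLexp, hLexp]
        exact hcom _ _ _ _ (by omega) (by omega) (by omega) (by omega)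
    · rw [if_neg hcj, sub_eq_zero]
      have h1 : Commute (Y 0 (j + 1)) (Y (c + 1) (c + 2)) :=
        hcom _ _ _ _ (by omega) (by omega) (by omega) (by omega)
      have h2 : Commute (Y 0 (j + 1)) (v c) := by
        apply commute_log (hLnil _ _ _)
        rw [hLexp]
        exact h1
      have h3 : Commute (v c) (u j) := by
        apply commute_log (hLnil _ _ _)
        rw [hLexp]
        exact h2.symm
      exact h3.symm.eq
  have := hLexp 0 (m + 1) (by omega)
  rw [← this]
  change IsNilpotent.exp (u m) = 1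
  rw [hu, IsNilpotent.exp_zero]

/-- An element of the kernel of `R → ℚ ⊗ R` is torsion. -/
theorem torsion_of_map_zero {R : Type*} [CommRing R] (r : R)
    (h : (Algebra.TensorProduct.includeRight : R →ₐ[ℤ] TensorProduct ℤ ℚ R) r = 0) :
    ∃ c : ℕ, 0 < c ∧ c • r = 0 := by
  have hloc : IsLocalizedModule (nonZeroDivisors ℤ) (TensorProduct.mk ℤ ℚ R 1) :=
    (isLocalizedModule_iff_isBaseChange (nonZeroDivisors ℤ) ℚ _).2
      (TensorProduct.isBaseChange ℤ R ℚ)
  have h' : TensorProduct.mk ℤ ℚ R 1 r = 0 := h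
  rw [IsLocalizedModule.eq_zero_iff (nonZeroDivisors ℤ)] at h'
  obtain ⟨c, hc⟩ := h'
  have hc0 : (c : ℤ) ≠ 0 := nonZeroDivisors.ne_zero c.2
  refine ⟨(c : ℤ).natAbs, Int.natAbs_pos.2 hc0, ?_⟩
  have hc' : (c : ℤ) • r = 0 := hc
  rcases Int.natAbs_eq (c : ℤ) with h1 | h1
  · rw [h1] at hc'
    simpa using hc'
  · rw [h1] at hc'
    simpa using hc'

/-- Main nonlinearity statement: under the unitriangular relations, the image of
`t 0 (2 * (n ^ 2 + 2))` in `GL_n(R)` has finite order, for every commutative ring `R`. -/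
theorem image_finite_order {H : Type*} [Group H] {t : ℕ → ℕ → H} (ht : UTRel t)
    {R : Type*} [CommRing R] {n : ℕ} (ρ : H →* GL (Fin n) R) :
    ∃ M : ℕ, 0 < M ∧ ρ (t 0 (2 * (n * n + 2))) ^ M = 1 := by
  set e := Nat.factorial n with he
  have hepos : 0 < e := Nat.factorial_pos n
  let X : ℕ → ℕ → GL (Fin n) R := fun a b => ρ (t (2 * a) (2 * b))
  let Y : ℕ → ℕ → GL (Fin n) R := fun a b => X a b ^ (e ^ (b - a))
  have hXrel : ∀ a c b, a < c → c < b → X a c * X c b = X a b * X c b * X a c := by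
    intro a c b hac hcb
    simp only [X, ← map_mul]
    rw [ht.rel _ _ _ (by omega) (by omega)]
  have hXcom : ∀ a b c d, a < b → c < d → b ≠ c → a ≠ d → Commute (X a b) (X c d) := by
    intro a b c d hab hcd hbc had
    exact (ht.com _ _ _ _ (by omega) (by omega) (by omega) (by omega)).map ρ
  have hXnil : ∀ a b, a < b →
      IsNilpotent ((X a b : Matrix (Fin n) (Fin n) R) ^ e - 1) := by
    intro a b hab
    apply unipotent_pow (ρ (t (2 * a) (2 * a + 1))) (ρ (t (2 * a + 1) (2 * b))) (X a b)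
    · simp only [X, ← map_mul]
      rw [ht.rel _ _ _ (by omega) (by omega)]
    · exact (ht.com _ _ _ _ (by omega) (by omega) (by omega) (by omega)).map ρ
    · exact (ht.com _ _ _ _ (by omega) (by omega) (by omega) (by omega)).map ρ
  have hYnil : ∀ a b, a < b → IsNilpotent ((Y a b : Matrix (Fin n) (Fin n) R) - 1) := by
    intro a b hab
    have h1 : e ^ (b - a) = e * e ^ (b - a - 1) := by
      rw [← pow_succ']; congr 1; omega
    simp only [Y]
    rw [Units.val_pow_eq_pow_val, h1, pow_mul]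
    exact isNilpotent_pow_sub_one (hXnil a b hab) _
  have hYrel : ∀ a c b, a < c → c < b → Y a c * Y c b = Y a b * Y c b * Y a c := by
    intro a c b hac hcb
    have h1 : e ^ (b - a) = e ^ (c - a) * e ^ (b - c) := by
      rw [← pow_add]; congr 1; omega
    simp only [Y]
    rw [h1]
    exact pow_rel (hXrel a c b hac hcb) (hXcom _ _ _ _ (by omega) (by omega) (by omega) (by omega))
      (hXcom _ _ _ _ (by omega) (by omega) (by omega) (by omega)) _ _
  have hYcom : ∀ a b c d, a < b → c < d → b ≠ c → a ≠ d → Commute (Y a b) (Y c d) := by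
    intro a b c d hab hcd hbc had
    exact (hXcom a b c d hab hcd hbc had).pow_pow _ _
  let S := TensorProduct ℤ ℚ R
  let φ : R →+* S := (Algebra.TensorProduct.includeRight : R →ₐ[ℤ] TensorProduct ℤ ℚ R).toRingHom
  have hone : φ.mapMatrix (Y 0 (n * n + 1 + 1) : Matrix (Fin n) (Fin n) R) = 1 := by
    apply rational_case (n * n + 1) (by omega)
      (fun a b => φ.mapMatrix (Y a b : Matrix (Fin n) (Fin n) R))
    · intro a b hab
      have := (hYnil a b hab).map φ.mapMatrix
      rwa [map_sub, map_one] at this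
    · intro a c b hac hcb
      have := congrArg (fun Z : GL (Fin n) R => φ.mapMatrix (Z : Matrix (Fin n) (Fin n) R))
        (hYrel a c b hac hcb)
      simpa only [Units.val_mul, map_mul] using this
    · intro a b c d hab hcd hbc had
      have := congrArg (fun Z : GL (Fin n) R => φ.mapMatrix (Z : Matrix (Fin n) (Fin n) R))
        (hYcom a b c d hab hcd hbc had).eq
      change _ * _ = _ * _
      simpa only [Units.val_mul, map_mul] using this
  set W : Matrix (Fin n) (Fin n) R := (Y 0 (n * n + 1 + 1) : Matrix (Fin n) (Fin n) R) - 1 with hW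
  have hWzero : ∀ i j, ∃ c : ℕ, 0 < c ∧ c • W i j = 0 := by
    intro i j
    apply torsion_of_map_zero
    have h1 : φ.mapMatrix W = 0 := by rw [hW, map_sub, map_one, hone, sub_self]
    have h2 := congrFun (congrFun h1 i) j
    exact h2
  choose c hc hcW using hWzero
  let m0 : ℕ := ∏ p : Fin n × Fin n, c p.1 p.2
  have hm0 : 0 < m0 := Finset.prod_pos fun p _ => hc p.1 p.2
  have hm0W : m0 • W = 0 := by
    ext i j
    rw [Matrix.smul_apply, Matrix.zero_apply]
    have hdvd : c i j ∣ m0 := Finset.dvd_prod_of_mem (fun p : Fin n × Fin n => c p.1 p.2)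
      (Finset.mem_univ (i, j))
    obtain ⟨k, hk⟩ := hdvd
    rw [hk, mul_comm, mul_smul, hcW, smul_zero]
  obtain ⟨M, hM, hpow⟩ := pow_eq_one_of_torsion W (hYnil 0 (n * n + 1 + 1) (by omega)) m0 hm0 hm0W
  refine ⟨e ^ (n * n + 1 + 1) * M, by positivity, ?_⟩
  rw [pow_mul]
  have h1 : ρ (t 0 (2 * (n * n + 2))) ^ e ^ (n * n + 1 + 1) = Y 0 (n * n + 1 + 1) := by
    simp only [Y, X]
    rfl
  rw [h1]
  apply Units.ext
  rw [Units.val_pow_eq_pow_val, Units.val_one]
  have h2 : 1 + W = (Y 0 (n * n + 1 + 1) : Matrix (Fin n) (Fin n) R) := by rw [hW]; abel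
  rw [h2] at hpow
  exact hpow

end Pool.Agent.Helper89
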