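import Pool.Agent.Helper89.Lcs
import Pool.Agent.Helper89.Nonlin

/-!
# The finitary unitriangular group over ℤ, and its lower central series
-/

namespace Pool.Agent.Helper89

open Subgroup
open scoped commutatorElement

/-- The additive endomorphism `f ↦ f b • e_a` of `ℤ^(ℕ)` (a matrix unit). -/
noncomputable def matE (a b : ℕ) : AddMonoid.End (ℕ →₀ ℤ) :=
  (Finsupp.singleAddHom a).comp (Finsupp.applyAddHom b)

theorem endmul (f g : AddMonoid.End (ℕ →₀ ℤ)) (x : ℕ →₀ ℤ) : (f * g) x = f (g x) := rfl

theorem matE_apply (a b : ℕ) (f : ℕ →₀ ℤ) : matE a b f = Finsupp.single a (f b) := rfl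

theorem matE_mul (a b c d : ℕ) :
    matE a b * matE c d = if b = c then matE a d else 0 := by
  split_ifs with h
  · subst h
    apply AddMonoidHom.ext
    intro x
    change Finsupp.single a ((Finsupp.single b (x d) : ℕ →₀ ℤ) b) = Finsupp.single a (x d)
    rw [Finsupp.single_eq_same]
  · apply AddMonoidHom.ext
    intro x
    change Finsupp.single a ((Finsupp.single c (x d) : ℕ →₀ ℤ) b) = 0
    rw [Finsupp.single_apply, if_neg (Ne.symm h), Finsupp.single_zero]

/-- elementary unitriangular automorphism `1 + E_{ab}` (`a < b`) -/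
noncomputable def elT (a b : ℕ) : (AddMonoid.End (ℕ →₀ ℤ))ˣ :=
  if h : a < b then
    { val := 1 + matE a b
      inv := 1 - matE a b
      val_inv := by
        have : matE a b * matE a b = 0 := by rw [matE_mul, if_neg (by omega)]
        rw [mul_sub, mul_one, add_mul, one_mul, this]
        abel
      inv_val := by
        have : matE a b * matE a b = 0 := by rw [matE_mul, if_neg (by omega)]
        rw [mul_add, mul_one, sub_mul, one_mul, this]
        abel }
  else 1

theorem elT_val {a b : ℕ} (h : a < b) :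
    ((elT a b : (AddMonoid.End (ℕ →₀ ℤ))ˣ) : AddMonoid.End (ℕ →₀ ℤ)) = 1 + matE a b := by
  rw [elT, dif_pos h]

theorem elT_inv_val {a b : ℕ} (h : a < b) :
    (((elT a b)⁻¹ : (AddMonoid.End (ℕ →₀ ℤ))ˣ) : AddMonoid.End (ℕ →₀ ℤ)) = 1 - matE a b := by
  rw [elT, dif_pos h]
  rfl

/-- The group of finitary upper unitriangular integer matrices indexed by `ℕ`, as the group of
automorphisms of `ℤ^(ℕ)` generated by the `1 + E_{ab}`, `a < b`. -/
noncomputable def UT : Subgroup (AddMonoid.End (ℕ →₀ ℤ))ˣ :=
  Subgroup.closure {g | ∃ a b, a < b ∧ g = elT a b}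

/-- generators of `UT` -/
noncomputable def tt (a b : ℕ) : UT :=
  if h : a < b then ⟨elT a b, Subgroup.subset_closure ⟨a, b, h, rfl⟩⟩ else 1

theorem coe_tt {a b : ℕ} (h : a < b) : ((tt a b : UT) : (AddMonoid.End (ℕ →₀ ℤ))ˣ) = elT a b := by
  rw [tt, dif_pos h]

theorem tt_rel : UTRel tt where
  rel := by
    intro a c b hac hcb
    apply Subtype.ext
    apply Units.ext
    simp only [Subgroup.coe_mul, Units.val_mul, coe_tt hac, coe_tt hcb, coe_tt (hac.trans hcb),
      elT_val hac, elT_val hcb, elT_val (hac.trans hcb)]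
    have h1 : matE a c * matE c b = matE a b := by rw [matE_mul, if_pos rfl]
    have h2 : matE c b * matE a c = 0 := by rw [matE_mul, if_neg (by omega)]
    have h3 : matE a b * matE c b = 0 := by rw [matE_mul, if_neg (by omega)]
    have h4 : matE a b * matE a c = 0 := by rw [matE_mul, if_neg (by omega)]
    have : (1 + matE a b) * (1 + matE c b) * (1 + matE a c) =
        1 + matE a b + matE c b + matE a c + matE a b * matE c b + matE a b * matE a c +
        matE c b * matE a c + matE a b * (matE c b * matE a c) := by noncomm_ring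
    rw [this, h2, h3, h4]
    have : (1 + matE a c) * (1 + matE c b) =
        1 + matE a c + matE c b + matE a c * matE c b := by noncomm_ring
    rw [this, h1, mul_zero]
    abel
  com := by
    intro a b c d hab hcd hbc had
    apply Subtype.ext
    apply Units.ext
    simp only [Subgroup.coe_mul, Units.val_mul, coe_tt hab, coe_tt hcd, elT_val hab, elT_val hcd]
    have h1 : matE a b * matE c d = 0 := by rw [matE_mul, if_neg hbc]
    have h2 : matE c d * matE a b = 0 := by rw [matE_mul, if_neg (Ne.symm had)]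
    have e1 : (1 + matE a b) * (1 + matE c d) =
      1 + matE a b + matE c d + matE a b * matE c d := by noncomm_ring
    have e2 : (1 + matE c d) * (1 + matE a b) =
      1 + matE a b + matE c d + matE c d * matE a b := by noncomm_ring
    rw [e1, e2, h1, h2]

/-- generating sets of the lower central series -/
def gens (i : ℕ) : Set UT := {g | ∃ a b, a + i + 1 ≤ b ∧ g = tt a b}

/-- the subgroups generated by them -/
noncomputable def filt (i : ℕ) : Subgroup UT := Subgroup.closure (gens i)

theorem tt_mem_filt {i a b : ℕ} (h : a + i + 1 ≤ b) : tt a b ∈ filt i :=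
  Subgroup.subset_closure ⟨a, b, h, rfl⟩

theorem filt_zero : filt 0 = ⊤ := by
  rw [eq_top_iff]
  rintro ⟨g, hg⟩ -
  have key : UT ≤ (filt 0).map UT.subtype := by
    conv_lhs => rw [UT]
    rw [Subgroup.closure_le]
    rintro _ ⟨a, b, hab, rfl⟩
    exact ⟨tt a b, tt_mem_filt (by omega), coe_tt hab⟩
  obtain ⟨x, hx, hxg⟩ := key hg
  have : (⟨g, hg⟩ : UT) = x := Subtype.ext hxg.symm
  rw [this]
  exact hx

theorem filt_succ_le (i : ℕ) : filt (i + 1) ≤ filt i := by
  apply Subgroup.closure_mono
  rintro _ ⟨a, b, h, rfl⟩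
  exact ⟨a, b, by omega, rfl⟩

/-- conjugating a generator of `filt i` by a generator `tt c d` or its inverse stays in `filt i` -/
theorem conj_gen_mem {i a b c d : ℕ} (h : a + i + 1 ≤ b) (hcd : c < d) :
    tt c d * tt a b * (tt c d)⁻¹ ∈ filt i ∧ (tt c d)⁻¹ * tt a b * tt c d ∈ filt i := by
  have hab : a < b := by omega
  rcases eq_or_ne d a with hda | hda
  · subst hda
    -- `c < d < b` : `t c d * t d b = t c b * t d b * t c d`
    have hr := tt_rel.rel c d b hcd hab
    have hcom : Commute (tt c b) (tt c d) :=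
      tt_rel.com _ _ _ _ (by omega) (by omega) (by omega) (by omega)
    have hcom2 : Commute (tt c b) (tt d b) :=
      tt_rel.com _ _ _ _ (by omega) (by omega) (by omega) (by omega)
    have hcb : tt c b ∈ filt i := tt_mem_filt (by omega)
    have hdb : tt d b ∈ filt i := tt_mem_filt h
    constructor
    · have : tt c d * tt d b * (tt c d)⁻¹ = tt c b * tt d b := by rw [hr]; group
      rw [this]
      exact mul_mem hcb hdb
    · have : (tt c d)⁻¹ * tt d b * tt c d = (tt c b)⁻¹ * tt d b := by
        have h1 : tt d b * tt c d = (tt c b)⁻¹ * (tt c d * tt d b) := by rw [hr]; group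
        rw [mul_assoc, h1, ← mul_assoc, ← mul_assoc, (hcom.inv_left.inv_right).symm.eq]
        group
      rw [this]
      exact mul_mem (inv_mem hcb) hdb
  · rcases eq_or_ne c b with hcb | hcb
    · subst hcb
      have hr := tt_rel.rel a c d hab hcd
      have hcom : Commute (tt a d) (tt c d) :=
        tt_rel.com _ _ _ _ (by omega) (by omega) (by omega) (by omega)
      have had : tt a d ∈ filt i := tt_mem_filt (by omega)
      have hac : tt a c ∈ filt i := tt_mem_filt h
      constructor
      · have : tt c d * tt a c * (tt c d)⁻¹ = (tt a d)⁻¹ * tt a c := by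
          have h1 : tt c d * tt a c = (tt a d)⁻¹ * (tt a c * tt c d) := by rw [hr]; group
          rw [h1]; group
        rw [this]
        exact mul_mem (inv_mem had) hac
      · have : (tt c d)⁻¹ * tt a c * tt c d = tt a d * tt a c := by
          rw [mul_assoc, hr, ← mul_assoc, ← mul_assoc, ← (hcom.inv_right).eq]
          group
        rw [this]
        exact mul_mem had hac
    · have hcom : Commute (tt c d) (tt a b) := tt_rel.com _ _ _ _ hcd hab hda hcb
      constructor
      · rw [hcom.eq, mul_inv_cancel_right]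
        exact tt_mem_filt h
      · rw [mul_assoc, ← hcom.eq, inv_mul_cancel_left]
        exact tt_mem_filt h

instance filt_normal (i : ℕ) : (filt i).Normal := by
  have key : (⊤ : Subgroup UT) ≤ Subgroup.normalizer (filt i : Set UT) := by
    rw [← filt_zero, filt, Subgroup.closure_le]
    rintro _ ⟨c, d, hcd, rfl⟩
    have hcd' : c < d := by omega
    rw [SetLike.mem_coe, Subgroup.mem_normalizer_iff]
    have h1 : ∀ x ∈ filt i, tt c d * x * (tt c d)⁻¹ ∈ filt i := by
      intro x hx
      have : filt i ≤ (filt i).comap (MulAut.conj (tt c d)).toMonoidHom := by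
        conv_lhs => rw [filt]
        rw [Subgroup.closure_le]
        rintro _ ⟨a, b, hab, rfl⟩
        exact (conj_gen_mem hab hcd').1
      exact this hx
    have h2 : ∀ x ∈ filt i, (tt c d)⁻¹ * x * tt c d ∈ filt i := by
      intro x hx
      have : filt i ≤ (filt i).comap (MulAut.conj (tt c d)⁻¹).toMonoidHom := by
        conv_lhs => rw [filt]
        rw [Subgroup.closure_le]
        rintro _ ⟨a, b, hab, rfl⟩
        have := (conj_gen_mem hab hcd').2
        simpa [MulAut.conj_apply] using this
      have := this hx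
      simpa [MulAut.conj_apply] using this
    intro x
    constructor
    · exact h1 x
    · intro hx
      have := h2 _ hx
      have e : (tt c d)⁻¹ * (tt c d * x * (tt c d)⁻¹) * tt c d = x := by group
      rwa [e] at this
  exact Subgroup.normalizer_eq_top_iff.1 (top_le_iff.1 key)

theorem tt_eq_commutator {a c b : ℕ} (hac : a < c) (hcb : c < b) :
    tt a b = ⁅tt a c, tt c b⁆ := by
  rw [commutatorElement_def, tt_rel.rel a c b hac hcb]
  group

/-- commutators modulo a normal subgroup, checked on generators -/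
theorem commutator_closure_le {G : Type*} [Group G] (S T : Set G) (N : Subgroup G) [N.Normal]
    (h : ∀ s ∈ S, ∀ t ∈ T, ⁅s, t⁆ ∈ N) :
    ⁅Subgroup.closure S, Subgroup.closure T⁆ ≤ N := by
  have hmem : ∀ x y : G, ⁅x, y⁆ ∈ N ↔ Commute (QuotientGroup.mk' N x) (QuotientGroup.mk' N y) := by
    intro x y
    rw [← commutatorElement_eq_one_iff_commute, ← map_commutatorElement, ← MonoidHom.mem_ker,
      QuotientGroup.ker_mk']
  rw [Subgroup.commutator_le]
  intro x hx y hy
  rw [hmem]
  have h1 : ∀ t ∈ T, Commute (QuotientGroup.mk' N x) (QuotientGroup.mk' N t) := by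
    intro t ht
    have : Subgroup.closure S ≤
        (Subgroup.centralizer {QuotientGroup.mk' N t}).comap (QuotientGroup.mk' N) := by
      rw [Subgroup.closure_le]
      intro s hs
      rw [SetLike.mem_coe, Subgroup.mem_comap, Subgroup.mem_centralizer_singleton_iff]
      exact ((hmem s t).1 (h s hs t ht)).eq
    have := this hx
    rw [Subgroup.mem_comap, Subgroup.mem_centralizer_singleton_iff] at this
    exact this
  have : Subgroup.closure T ≤
      (Subgroup.centralizer {QuotientGroup.mk' N x}).comap (QuotientGroup.mk' N) := by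
    rw [Subgroup.closure_le]
    intro t ht
    rw [SetLike.mem_coe, Subgroup.mem_comap, Subgroup.mem_centralizer_singleton_iff]
    exact (h1 t ht).symm.eq
  have := this hy
  rw [Subgroup.mem_comap, Subgroup.mem_centralizer_singleton_iff] at this
  exact Commute.symm this

/-- The lower central series of `UT`. -/
theorem lcs_UT (i : ℕ) : (⊤ : Subgroup UT).lowerCentralSeries i = filt i := by
  induction i with
  | zero => rw [Subgroup.lowerCentralSeries_zero, filt_zero]
  | succ i ih =>
    rw [Subgroup.lowerCentralSeries_succ, ih]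
    apply le_antisymm
    · rw [← filt_zero]
      apply commutator_closure_le
      rintro _ ⟨a, b, hab, rfl⟩ _ ⟨c, d, hcd, rfl⟩
      rcases eq_or_ne b c with hbc | hbc
      · subst hbc
        rw [← tt_eq_commutator (by omega) (by omega)]
        exact tt_mem_filt (by omega)
      · rcases eq_or_ne a d with had | had
        · subst had
          rw [← commutatorElement_inv, ← tt_eq_commutator (by omega) (by omega)]
          exact inv_mem (tt_mem_filt (by omega))
        · have : Commute (tt a b) (tt c d) :=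
            tt_rel.com _ _ _ _ (by omega) (by omega) hbc had
          rw [commutatorElement_eq_one_iff_commute.2 this]
          exact one_mem _
    · conv_lhs => rw [filt]
      rw [Subgroup.closure_le]
      rintro _ ⟨a, b, hab, rfl⟩
      rw [tt_eq_commutator (c := a + i + 1) (by omega) (by omega)]
      exact Subgroup.commutator_mem_commutator (tt_mem_filt (by omega)) (Subgroup.mem_top _)

/-- The matrix-type filtration. -/
noncomputable def vfilt (i : ℕ) : Subgroup (AddMonoid.End (ℕ →₀ ℤ))ˣ where
  carrier := {g | ∀ (f : ℕ →₀ ℤ) (a : ℕ), (∀ b, a + i + 1 ≤ b → f b = 0) →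
    (g : AddMonoid.End (ℕ →₀ ℤ)) f a = f a ∧
    ((g⁻¹ : (AddMonoid.End (ℕ →₀ ℤ))ˣ) : AddMonoid.End (ℕ →₀ ℤ)) f a = f a}
  one_mem' := by
    intro f a _
    simp
  mul_mem' := by
    intro g h hg hh f a hf
    constructor
    · rw [Units.val_mul, endmul]
      have hb : ∀ b, a ≤ b → (h : AddMonoid.End (ℕ →₀ ℤ)) f b = f b := fun b hab =>
        (hh f b fun b' hb' => hf b' (by omega)).1
      rw [(hg _ a fun b hb' => by rw [hb b (by omega)]; exact hf b hb').1]
      exact hb a le_rfl
    · rw [mul_inv_rev, Units.val_mul, endmul]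
      have hb : ∀ b, a ≤ b →
          ((g⁻¹ : (AddMonoid.End (ℕ →₀ ℤ))ˣ) : AddMonoid.End (ℕ →₀ ℤ)) f b = f b := fun b hab =>
        (hg f b fun b' hb' => hf b' (by omega)).2
      rw [(hh _ a fun b hb' => by rw [hb b (by omega)]; exact hf b hb').2]
      exact hb a le_rfl
  inv_mem' := by
    intro g hg f a hf
    have := hg f a hf
    rw [inv_inv]
    exact ⟨this.2, this.1⟩

theorem elT_mem_vfilt {i a b : ℕ} (h : a + i + 1 ≤ b) : elT a b ∈ vfilt i := by
  have hab : a < b := by omega
  intro f a' hf
  rw [elT_val hab, elT_inv_val hab]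
  have key : matE a b f a' = 0 := by
    rw [matE_apply, Finsupp.single_apply]
    split_ifs with h1
    · subst h1
      exact hf b h
    · rfl
  constructor
  · change (f + matE a b f) a' = f a'
    rw [Finsupp.add_apply, key, add_zero]
  · change (f - matE a b f) a' = f a'
    rw [Finsupp.sub_apply, key, sub_zero]

theorem filt_le_vfilt (i : ℕ) : filt i ≤ (vfilt i).comap UT.subtype := by
  rw [filt, Subgroup.closure_le]
  rintro _ ⟨a, b, hab, rfl⟩
  rw [SetLike.mem_coe, Subgroup.mem_comap, Subgroup.subtype_apply, coe_tt (by omega)]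
  exact elT_mem_vfilt hab

theorem iInf_lcs_UT : ⨅ i, (⊤ : Subgroup UT).lowerCentralSeries i = ⊥ := by
  rw [eq_bot_iff]
  intro g hg
  rw [Subgroup.mem_iInf] at hg
  rw [Subgroup.mem_bot]
  apply Subtype.ext
  apply Units.ext
  apply Finsupp.addHom_ext
  intro x z
  ext j
  set f : ℕ →₀ ℤ := Finsupp.single x z with hf
  have h1 := hg (x + 1)
  rw [lcs_UT] at h1
  have h2 := (filt_le_vfilt (x + 1) h1) f j (by
    intro b hb
    rw [hf, Finsupp.single_apply, if_neg (by omega)])
  exact h2.1

/-- the `i`-th superdiagonal as a homomorphism -/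
noncomputable def diag (i : ℕ) : vfilt i →* Multiplicative (ℕ → ℤ) where
  toFun g := Multiplicative.ofAdd fun a =>
    ((g : (AddMonoid.End (ℕ →₀ ℤ))ˣ) : AddMonoid.End (ℕ →₀ ℤ)) (Finsupp.single (a + i + 1) 1) a
  map_one' := by
    apply Multiplicative.toAdd.injective
    funext a
    change (Finsupp.single (a + i + 1) 1 : ℕ →₀ ℤ) a = 0
    rw [Finsupp.single_apply, if_neg (by omega)]
  map_mul' := by
    intro g h
    apply Multiplicative.toAdd.injective
    funext a
    change (((g * h : vfilt i) : (AddMonoid.End (ℕ →₀ ℤ))ˣ) : AddMonoid.End (ℕ →₀ ℤ))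
      (Finsupp.single (a + i + 1) 1) a =
      ((g : (AddMonoid.End (ℕ →₀ ℤ))ˣ) : AddMonoid.End (ℕ →₀ ℤ)) (Finsupp.single (a + i + 1) 1) a +
      ((h : (AddMonoid.End (ℕ →₀ ℤ))ˣ) : AddMonoid.End (ℕ →₀ ℤ)) (Finsupp.single (a + i + 1) 1) a
    rw [Subgroup.coe_mul, Units.val_mul, endmul]
    set e : ℕ →₀ ℤ := Finsupp.single (a + i + 1) 1 with he
    set F : ℕ →₀ ℤ := ((h : (AddMonoid.End (ℕ →₀ ℤ))ˣ) : AddMonoid.End (ℕ →₀ ℤ)) e with hF
    have hFe : ∀ b, a + 1 ≤ b → F b = e b := by
      intro b hb
      exact (h.2 e b fun b' hb' => by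
        rw [he, Finsupp.single_apply, if_neg (by omega)]).1
    have h1 := (g.2 (F - e) a fun b hb => by
      rw [Finsupp.sub_apply, hFe b (by omega), sub_self]).1
    rw [map_sub, Finsupp.sub_apply, Finsupp.sub_apply] at h1
    have h2 : e a = 0 := by rw [he, Finsupp.single_apply, if_neg (by omega)]
    rw [h2] at h1
    linarith

/-- the `i`-th superdiagonal on the `i`-th term of the lower central series of `UT` -/
noncomputable def lcsDiag (i : ℕ) :
    ↥((⊤ : Subgroup UT).lowerCentralSeries i) →* Multiplicative (ℕ → ℤ) :=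
  (diag i).comp ((UT.subtype.comp (Subgroup.subtype _)).codRestrict (vfilt i) (fun x => by
    exact filt_le_vfilt i ((lcs_UT i).le x.2)))

theorem lcsDiag_apply (i : ℕ) (x : ↥((⊤ : Subgroup UT).lowerCentralSeries i)) (a : ℕ) :
    Multiplicative.toAdd (lcsDiag i x) a =
      (((x : UT) : (AddMonoid.End (ℕ →₀ ℤ))ˣ) : AddMonoid.End (ℕ →₀ ℤ))
        (Finsupp.single (a + i + 1) 1) a := rfl

theorem lcsDiag_ker (i : ℕ) : ((⊤ : Subgroup UT).lowerCentralSeries (i + 1)).subgroupOf
    ((⊤ : Subgroup UT).lowerCentralSeries i) ≤ (lcsDiag i).ker := by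
  intro x hx
  rw [Subgroup.mem_subgroupOf, lcs_UT] at hx
  rw [MonoidHom.mem_ker]
  apply Multiplicative.toAdd.injective
  funext a
  rw [lcsDiag_apply]
  have h1 := (filt_le_vfilt (i + 1) hx) (Finsupp.single (a + i + 1) 1) a (by
    intro b hb
    rw [Finsupp.single_apply, if_neg (by omega)])
  have h2 := h1.1
  rw [Subgroup.subtype_apply] at h2
  rw [h2, Finsupp.single_apply, if_neg (by omega)]
  rfl

/-- the superdiagonal on the lower central factor -/
noncomputable def factorDiag (i : ℕ) : lcFactor UT i →* Multiplicative (ℕ → ℤ) :=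
  QuotientGroup.lift _ (lcsDiag i) (lcsDiag_ker i)

theorem tt_mem_lcs {i a b : ℕ} (h : a + i + 1 ≤ b) :
    tt a b ∈ (⊤ : Subgroup UT).lowerCentralSeries i := by
  rw [lcs_UT]; exact tt_mem_filt h

/-- basis elements of the factor -/
noncomputable def bas (i a : ℕ) : lcFactor UT i :=
  QuotientGroup.mk ⟨tt a (a + i + 1), tt_mem_lcs le_rfl⟩

/-- the section `ℤ^(ℕ) → gr_i` -/
noncomputable def sec (i : ℕ) : (ℕ →₀ ℤ) →+ Additive (lcFactor UT i) :=
  Finsupp.liftAddHom fun a => zmultiplesHom _ (Additive.ofMul (bas i a))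

theorem factorDiag_bas (i a : ℕ) :
    Multiplicative.toAdd (factorDiag i (bas i a)) = Pi.single a 1 := by
  funext a'
  change (((tt a (a + i + 1) : UT) : (AddMonoid.End (ℕ →₀ ℤ))ˣ) : AddMonoid.End (ℕ →₀ ℤ))
        (Finsupp.single (a' + i + 1) 1) a' = _
  rw [coe_tt (by omega), elT_val (by omega)]
  change ((Finsupp.single (a' + i + 1) 1 : ℕ →₀ ℤ) +
    matE a (a + i + 1) (Finsupp.single (a' + i + 1) 1)) a' = _
  rw [Finsupp.add_apply, matE_apply]
  rcases eq_or_ne a' a with h | h
  · subst h
    rw [Finsupp.single_apply, if_neg (by omega), Finsupp.single_eq_same,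
      Finsupp.single_eq_same, Pi.single_eq_same, zero_add]
  · rw [Finsupp.single_apply, if_neg (by omega), Finsupp.single_apply, if_neg (Ne.symm h),
      Pi.single_eq_of_ne h]
    rfl

theorem sec_injective (i : ℕ) : Function.Injective (sec i) := by
  have key : ∀ x : ℕ →₀ ℤ,
      Multiplicative.toAdd (factorDiag i (Additive.toMul (sec i x))) = (x : ℕ → ℤ) := by
    let F : (ℕ →₀ ℤ) →+ (ℕ → ℤ) :=
      ((MonoidHom.toAdditiveLeft (factorDiag i)).comp (sec i))
    have hF : F = Finsupp.coeFnAddHom := by
      ext a : 2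
      change Multiplicative.toAdd (factorDiag i (Additive.toMul (sec i (Finsupp.single a 1)))) = _
      have : sec i (Finsupp.single a 1) = Additive.ofMul (bas i a) := by
        simp [sec]
      rw [this, toMul_ofMul, factorDiag_bas]
      funext b
      simp [Pi.single_apply, Finsupp.single_apply, eq_comm]
    intro x
    exact DFunLike.congr_fun hF x
  intro x y hxy
  have h1 := key x
  rw [hxy, key y] at h1
  exact (DFunLike.coe_injective h1).symm

theorem sec_surjective (i : ℕ) : Function.Surjective (sec i) := by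
  let π : ↥((⊤ : Subgroup UT).lowerCentralSeries i) →* lcFactor UT i := QuotientGroup.mk' _
  let K : Subgroup ↥((⊤ : Subgroup UT).lowerCentralSeries i) :=
    (AddSubgroup.toSubgroup' (sec i).range).comap π
  have hK : ∀ x, x ∈ K ↔ ∃ y, sec i y = Additive.ofMul (π x) := fun x => Iff.rfl
  have hKtop : ∀ x, x ∈ K := by
    intro x
    have hle : filt i ≤ K.map (Subgroup.subtype _) := by
      conv_lhs => rw [filt]
      rw [Subgroup.closure_le]
      rintro _ ⟨a, b, hab, rfl⟩
      refine ⟨⟨tt a b, tt_mem_lcs hab⟩, ?_, rfl⟩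
      rw [SetLike.mem_coe, hK]
      rcases eq_or_lt_of_le hab with h | h
      · subst h
        refine ⟨Finsupp.single a 1, ?_⟩
        simp [sec]
        rfl
      · refine ⟨0, ?_⟩
        rw [map_zero]
        have : π ⟨tt a b, tt_mem_lcs hab⟩ = 1 := by
          change (QuotientGroup.mk _ : lcFactor UT i) = 1
          rw [QuotientGroup.eq_one_iff, Subgroup.mem_subgroupOf]
          exact tt_mem_lcs (by omega)
        rw [this]
        rfl
    have hx : (x : UT) ∈ filt i := (lcs_UT i).le x.2
    obtain ⟨y, hy, hyx⟩ := hle hx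
    have : y = x := Subtype.ext hyx
    rw [← this]
    exact hy
  intro q
  obtain ⟨x, hx⟩ := QuotientGroup.mk'_surjective _ (Additive.toMul q)
  obtain ⟨y, hy⟩ := (hK x).1 (hKtop x)
  refine ⟨y, ?_⟩
  rw [hy]
  exact congrArg Additive.ofMul hx

/-- The lower central factors of `UT` are free abelian of countably infinite rank. -/
theorem lcFactor_UT (i : ℕ) : Nonempty (lcFactor UT i ≃* Multiplicative (ℕ →₀ ℤ)) := by
  let e : (ℕ →₀ ℤ) ≃+ Additive (lcFactor UT i) :=
    AddEquiv.ofBijective (sec i) ⟨sec_injective i, sec_surjective i⟩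
  exact ⟨(AddEquiv.toMultiplicativeLeft e).symm⟩

theorem tt_infinite_order {K : ℕ} (hK : 0 < K) {M : ℕ} (hM : 0 < M) : tt 0 K ^ M ≠ 1 := by
  intro h
  have hmem : tt 0 K ∈ (⊤ : Subgroup UT).lowerCentralSeries (K - 1) := tt_mem_lcs (by omega)
  have h1 : (⟨tt 0 K, hmem⟩ : ↥((⊤ : Subgroup UT).lowerCentralSeries (K - 1))) ^ M = 1 :=
    Subtype.ext h
  have h2 := congrArg (fun x => Multiplicative.toAdd (lcsDiag (K - 1) x) 0) h1
  simp only [map_pow, map_one, toAdd_pow, toAdd_one, Pi.smul_apply, Pi.zero_apply] at h2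
  rw [lcsDiag_apply, coe_tt hK, elT_val hK] at h2
  have h3 : ((1 + matE 0 K : AddMonoid.End (ℕ →₀ ℤ)) (Finsupp.single (0 + (K - 1) + 1) 1)) 0 = 1 := by
    change ((Finsupp.single (0 + (K - 1) + 1) 1 : ℕ →₀ ℤ) +
      matE 0 K (Finsupp.single (0 + (K - 1) + 1) 1)) 0 = 1
    rw [Finsupp.add_apply, matE_apply, Finsupp.single_apply, if_neg (by omega),
      Finsupp.single_eq_same, Finsupp.single_apply, if_pos (by omega), zero_add]
  rw [h3] at h2
  simp at h2
  omega

end Pool.Agent.Helper89
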