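import Mathlib

/-!
# Commutators commuting with their factors have unipotent powers

If `A * B = Z * B * A` with `A`, `B`, `Z` invertible matrices over a commutative ring and `Z`
commutes with `A` and `B`, then `Z ^ n! - 1` is nilpotent.
-/

namespace Pool.Agent.Helper89

open Module

section Field

variable {K V : Type*} [Field K] [IsAlgClosed K] [AddCommGroup V] [Module K V]
  [FiniteDimensional K V]

/-- Every eigenvalue of `Z` is a root of unity of order at most `dim V`. -/
theorem eigenvalue_pow_eq_one (A A' B Z : End K V) (hA : A * A' = 1) (hA' : A' * A = 1)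
    (hB : IsUnit B) (hZu : IsUnit Z) (h : A * B = Z * B * A) (hZA : Commute Z A)
    (hZB : Commute Z B) {mu : K} (hmu : Z.HasEigenvalue mu) :
    mu ^ (Nat.factorial (finrank K V)) = 1 := by
  classical
  -- a common eigenvector of `Z` and `B`
  obtain ⟨v, hv0, hZv, b, hBv⟩ : ∃ v : V, v ≠ 0 ∧ Z v = mu • v ∧ ∃ b : K, B v = b • v := by
    have hmaps : ∀ x ∈ Z.eigenspace mu, B x ∈ Z.eigenspace mu := by
      intro x hx
      rw [End.mem_eigenspace_iff] at hx ⊢
      have := congrArg (fun f : End K V => f x) hZB.eq
      simp only [Module.End.mul_apply] at this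
      rw [this, hx, map_smul]
    let B' : End K (Z.eigenspace mu) := B.restrict hmaps
    have : Nontrivial (Z.eigenspace mu) := by
      rw [Submodule.nontrivial_iff_ne_bot]
      exact hmu
    obtain ⟨b, hb⟩ := End.exists_eigenvalue B'
    obtain ⟨w, hw⟩ := hb.exists_hasEigenvector
    refine ⟨w, ?_, ?_, b, ?_⟩
    · intro h0
      exact hw.2 (Subtype.ext h0)
    · exact End.mem_eigenspace_iff.1 w.2
    · have := hw.apply_eq_smul
      have h2 := congrArg (Subtype.val) this
      simpa [B'] using h2
  have hmu0 : mu ≠ 0 := by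
    rintro rfl
    obtain ⟨u, hu⟩ := hZu
    have : (↑u⁻¹ : End K V) (Z v) = v := by
      rw [← Module.End.mul_apply, ← hu]; simp
    rw [hZv] at this
    simp at this
    exact hv0 this.symm
  have hb0 : b ≠ 0 := by
    rintro rfl
    obtain ⟨u, hu⟩ := hB
    have : (↑u⁻¹ : End K V) (B v) = v := by
      rw [← Module.End.mul_apply, ← hu]; simp
    rw [hBv] at this
    simp at this
    exact hv0 this.symm
  -- `B * A' ^ j = A' ^ j * Z ^ j * B`
  have key : ∀ j : ℕ, B * A' ^ j = A' ^ j * (Z ^ j * B) := by
    intro j
    have h1 : B * A' = A' * (Z * B) := by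
      calc B * A' = (A' * A) * B * A' := by rw [hA', one_mul]
        _ = A' * (A * B) * A' := by simp only [mul_assoc]
        _ = A' * (Z * B * A) * A' := by rw [h]
        _ = A' * (Z * B) * (A * A') := by simp only [mul_assoc]
        _ = A' * (Z * B) := by rw [hA, mul_one]
    have hZA' : Commute Z A' := by
      change Z * A' = A' * Z
      calc Z * A' = (A' * A) * Z * A' := by rw [hA', one_mul]
        _ = A' * (A * Z) * A' := by simp only [mul_assoc]
        _ = A' * (Z * A) * A' := by rw [hZA.eq]
        _ = A' * Z * (A * A') := by simp only [mul_assoc]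
        _ = A' * Z := by rw [hA, mul_one]
    induction j with
    | zero => simp
    | succ j ih =>
      calc B * A' ^ (j + 1) = (B * A' ^ j) * A' := by rw [pow_succ, mul_assoc]
        _ = A' ^ j * (Z ^ j * B) * A' := by rw [ih]
        _ = A' ^ j * (Z ^ j * (B * A')) := by simp only [mul_assoc]
        _ = A' ^ j * (Z ^ j * (A' * (Z * B))) := by rw [h1]
        _ = A' ^ j * ((Z ^ j * A') * (Z * B)) := by simp only [mul_assoc]
        _ = A' ^ j * ((A' * Z ^ j) * (Z * B)) := by rw [(hZA'.pow_left j).eq]
        _ = A' ^ (j + 1) * (Z ^ (j + 1) * B) := by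
          rw [pow_succ, pow_succ]; simp only [mul_assoc]
  have hroot : ∀ j : ℕ, mu ^ j * b ∈ B.charpoly.roots := by
    intro j
    rw [Polynomial.mem_roots (LinearMap.charpoly_monic B).ne_zero,
      ← End.hasEigenvalue_iff_isRoot_charpoly]
    apply End.hasEigenvalue_of_hasEigenvector (x := (A' ^ j) v)
    refine ⟨?_, ?_⟩
    · rw [End.mem_eigenspace_iff]
      have h1 := congrArg (fun f : End K V => f v) (key j)
      simp only [Module.End.mul_apply] at h1
      rw [h1, hBv]
      have hZj : ∀ i : ℕ, (Z ^ i) v = mu ^ i • v := by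
        intro i
        induction i with
        | zero => simp
        | succ i ih =>
          rw [pow_succ, Module.End.mul_apply, hZv, map_smul, ih, smul_smul, ← pow_succ']
      rw [map_smul, map_smul, hZj, map_smul, smul_smul, mul_comm]
    · intro h0
      have : (A ^ j) ((A' ^ j) v) = v := by
        rw [← Module.End.mul_apply]
        have hc : Commute A A' := by
          change A * A' = A' * A
          rw [hA, hA']
        rw [← hc.mul_pow, hA]; simp
      rw [h0, map_zero] at this
      exact hv0 this.symm
  have hcard : (B.charpoly.roots.toFinset).card ≤ finrank K V := by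
    refine (Multiset.toFinset_card_le _).trans ?_
    refine (Polynomial.card_roots' _).trans ?_
    rw [LinearMap.charpoly_natDegree]
  have hpig : ∃ x ∈ Finset.range (finrank K V + 1), ∃ y ∈ Finset.range (finrank K V + 1),
      x ≠ y ∧ mu ^ x * b = mu ^ y * b := by
    apply Finset.exists_ne_map_eq_of_card_lt_of_maps_to (t := B.charpoly.roots.toFinset)
    · rw [Finset.card_range]; omega
    · intro j _
      simp only [Finset.mem_coe, Multiset.mem_toFinset]
      exact hroot j
  obtain ⟨x, hx, y, hy, hxy, hEq⟩ := hpig
  have hEq' : mu ^ x = mu ^ y := mul_right_cancel₀ hb0 hEq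
  rw [Finset.mem_range] at hx hy
  have main : ∀ x y : ℕ, x < y → y < finrank K V + 1 → mu ^ x = mu ^ y →
      mu ^ (Nat.factorial (finrank K V)) = 1 := by
    intro x y hlt hy hE
    have h1 : mu ^ (y - x) = 1 := by
      have : mu ^ x * mu ^ (y - x) = mu ^ x * 1 := by
        rw [← pow_add, Nat.add_sub_cancel' hlt.le, mul_one, hE]
      exact mul_left_cancel₀ (pow_ne_zero _ hmu0) this
    have hd : (y - x) ∣ Nat.factorial (finrank K V) :=
      Nat.dvd_factorial (by omega) (by omega)
    obtain ⟨c, hc⟩ := hd
    rw [hc, pow_mul, h1, one_pow]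
  rcases lt_or_gt_of_ne hxy with hlt | hgt
  · exact main x y hlt hy hEq'
  · exact main y x hgt hx hEq'.symm

/-- Over an algebraically closed field: `(Z ^ d! - 1) ^ d = 0` with `d = dim V`. -/
theorem unipotent_of_field (A A' B Z : End K V) (hA : A * A' = 1) (hA' : A' * A = 1)
    (hB : IsUnit B) (hZu : IsUnit Z) (h : A * B = Z * B * A) (hZA : Commute Z A)
    (hZB : Commute Z B) :
    (Z ^ (Nat.factorial (finrank K V)) - 1) ^ (finrank K V) = 0 := by
  classical
  set N := Nat.factorial (finrank K V) with hN
  have hNpos : 0 < N := Nat.factorial_pos _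
  have hdvd : Z.charpoly ∣ (Polynomial.X ^ N - 1) ^ (finrank K V) := by
    have hs := IsAlgClosed.splits Z.charpoly
    have hprod := hs.eq_prod_roots_of_monic (LinearMap.charpoly_monic Z)
    have hcard : Multiset.card Z.charpoly.roots = finrank K V := by
      rw [← hs.natDegree_eq_card_roots, LinearMap.charpoly_natDegree]
    rw [hprod, ← hcard]
    have hall : ∀ a ∈ Z.charpoly.roots, (Polynomial.X - Polynomial.C a) ∣
        (Polynomial.X ^ N - 1 : Polynomial K) := by
      intro a ha
      rw [Polynomial.dvd_iff_isRoot]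
      have hev : Z.HasEigenvalue a := by
        rw [End.hasEigenvalue_iff_isRoot_charpoly]
        exact Polynomial.isRoot_of_mem_roots ha
      have := eigenvalue_pow_eq_one A A' B Z hA hA' hB hZu h hZA hZB hev
      simp [Polynomial.IsRoot, hN, this]
    generalize Z.charpoly.roots = s at hall
    induction s using Multiset.induction_on with
    | empty => simp
    | cons a s ih =>
      rw [Multiset.map_cons, Multiset.prod_cons, Multiset.card_cons, pow_succ']
      exact mul_dvd_mul (hall a (Multiset.mem_cons_self a s))
        (ih fun b hb => hall b (Multiset.mem_cons_of_mem hb))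
  obtain ⟨q, hq⟩ := hdvd
  have := congrArg (Polynomial.aeval Z) hq
  rw [map_mul, LinearMap.aeval_self_charpoly, zero_mul] at this
  simpa using this

end Field

section CommRing

variable {R : Type*} [CommRing R] {n : ℕ}

theorem entries_mem_pow (I : Ideal R) (M : Matrix (Fin n) (Fin n) R) (h : ∀ i j, M i j ∈ I)
    (k : ℕ) : ∀ i j, (M ^ k) i j ∈ I ^ k := by
  induction k with
  | zero => intro i j; simp
  | succ k ih =>
    intro i j
    have e : (M ^ (k + 1)) i j = ∑ l, (M ^ k) i l * M l j := by
      rw [pow_succ M k]; rfl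
    rw [e, pow_succ]
    exact Ideal.sum_mem _ fun l _ => Ideal.mul_mem_mul (ih i l) (h l j)

/-- A matrix with nilpotent entries over a commutative ring is nilpotent. -/
theorem isNilpotent_of_entries (M : Matrix (Fin n) (Fin n) R)
    (h : ∀ i j, IsNilpotent (M i j)) : IsNilpotent M := by
  classical
  let S : Finset R := Finset.univ.image fun p : Fin n × Fin n => M p.1 p.2
  let I : Ideal R := Ideal.span (S : Set R)
  have hI : IsNilpotent I := by
    rw [Ideal.FG.isNilpotent_iff_le_nilradical ⟨S, rfl⟩]
    rw [Ideal.span_le]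
    intro x hx
    simp only [S, Finset.coe_image, Finset.coe_univ, Set.image_univ, Set.mem_range] at hx
    obtain ⟨p, rfl⟩ := hx
    exact h p.1 p.2
  obtain ⟨k, hk⟩ := hI
  refine ⟨k, ?_⟩
  ext i j
  have := entries_mem_pow I M (fun i j => Ideal.subset_span (by
    simp only [S, Finset.coe_image, Finset.coe_univ, Set.image_univ, Set.mem_range]
    exact ⟨(i, j), rfl⟩)) k i j
  rw [hk] at this
  simpa using this

/-- If `Z = [A, B]` commutes with `A` and `B` in `GL_n(R)`, then `Z ^ n!` is unipotent in the
sense that `Z ^ n! - 1` is nilpotent. -/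
theorem unipotent_pow (A B Z : GL (Fin n) R) (h : A * B = Z * B * A) (hZA : Commute Z A)
    (hZB : Commute Z B) :
    IsNilpotent ((Z : Matrix (Fin n) (Fin n) R) ^ (Nat.factorial n) - 1) := by
  classical
  suffices hs : IsNilpotent (((Z : Matrix (Fin n) (Fin n) R) ^ (Nat.factorial n) - 1) ^ n) by
    obtain ⟨k, hk⟩ := hs
    exact ⟨n * k, by rw [pow_mul, hk]⟩
  apply isNilpotent_of_entries
  intro i j
  rw [nilpotent_iff_mem_prime]
  intro P hP
  let K := AlgebraicClosure (FractionRing (R ⧸ P))
  let f : R →+* K := (algebraMap (FractionRing (R ⧸ P)) K).comp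
    ((algebraMap (R ⧸ P) (FractionRing (R ⧸ P))).comp (Ideal.Quotient.mk P))
  have hf : ∀ x, f x = 0 → x ∈ P := by
    intro x hx
    rw [← Ideal.Quotient.eq_zero_iff_mem]
    have h1 : Function.Injective ((algebraMap (FractionRing (R ⧸ P)) K).comp
      (algebraMap (R ⧸ P) (FractionRing (R ⧸ P)))) :=
      (algebraMap (FractionRing (R ⧸ P)) K).injective.comp
        (IsFractionRing.injective (R ⧸ P) (FractionRing (R ⧸ P)))
    apply h1
    simpa [f] using hx
  apply hf
  let g : Matrix (Fin n) (Fin n) R →+* End K (Fin n → K) :=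
    ((Matrix.toLinAlgEquiv' (R := K) (n := Fin n)) : _ →+* _).comp (f.mapMatrix)
  have hg : g ((((Z : Matrix (Fin n) (Fin n) R) ^ (Nat.factorial n) - 1) ^ n)) = 0 := by
    have hu : ∀ X : GL (Fin n) R, IsUnit (g (X : Matrix (Fin n) (Fin n) R)) := fun X =>
      X.isUnit.map g
    have h1 := unipotent_of_field (g (A : Matrix (Fin n) (Fin n) R))
      (g ((A⁻¹ : GL (Fin n) R) : Matrix (Fin n) (Fin n) R))
      (g (B : Matrix (Fin n) (Fin n) R)) (g (Z : Matrix (Fin n) (Fin n) R))
      (by rw [← map_mul]; simp) (by rw [← map_mul]; simp) (hu B) (hu Z)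
      (by
        have := congrArg (fun X : GL (Fin n) R => (X : Matrix (Fin n) (Fin n) R)) h
        simp only [Units.val_mul] at this
        rw [← map_mul, this, map_mul, map_mul])
      (by
        have := congrArg (fun X : GL (Fin n) R => (X : Matrix (Fin n) (Fin n) R)) hZA.eq
        simp only [Units.val_mul] at this
        change _ * _ = _ * _
        rw [← map_mul, this, map_mul])
      (by
        have := congrArg (fun X : GL (Fin n) R => (X : Matrix (Fin n) (Fin n) R)) hZB.eq
        simp only [Units.val_mul] at this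
        change _ * _ = _ * _
        rw [← map_mul, this, map_mul])
    rw [Module.finrank_fin_fun] at h1
    rw [map_pow, map_sub, map_pow, map_one]
    exact h1
  have hg' : (f.mapMatrix ((((Z : Matrix (Fin n) (Fin n) R) ^ (Nat.factorial n) - 1) ^ n))) = 0 := by
    apply (Matrix.toLinAlgEquiv' (R := K) (n := Fin n)).injective
    rw [map_zero]
    exact hg
  have := congrFun (congrFun hg' i) j
  simpa only [RingHom.mapMatrix_apply, Matrix.map_apply, Matrix.zero_apply] using this

/-- A unipotent matrix `1 + t` whose entries are killed by a positive integer has finite order. -/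
theorem pow_eq_one_of_torsion (t : Matrix (Fin n) (Fin n) R) (ht : IsNilpotent t) (m : ℕ)
    (hm : 0 < m) (hmt : m • t = 0) : ∃ M : ℕ, 0 < M ∧ (1 + t) ^ M = 1 := by
  obtain ⟨N, hN⟩ := ht
  refine ⟨m * Nat.factorial N, by positivity, ?_⟩
  rw [add_comm, (Commute.one_right t).add_pow]
  rw [Finset.sum_range_succ']
  have : ∑ k ∈ Finset.range (m * N.factorial), t ^ (k + 1) * 1 ^ (m * N.factorial - (k + 1)) *
      ((m * N.factorial).choose (k + 1) : Matrix (Fin n) (Fin n) R) = 0 := by
    apply Finset.sum_eq_zero
    intro k _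
    rcases le_or_gt N (k + 1) with h | h
    · rw [pow_eq_zero_of_le h hN, zero_mul, zero_mul]
    · have hdvd : m ∣ (m * N.factorial).choose (k + 1) := by
        have h1 : (m * N.factorial) * (m * N.factorial - 1).choose k =
            (m * N.factorial).choose (k + 1) * (k + 1) := by
          have := Nat.add_one_mul_choose_eq (m * N.factorial - 1) k
          have hpos : 0 < m * N.factorial := by positivity
          rwa [Nat.sub_add_cancel hpos] at this
        have h2 : (k + 1) ∣ N.factorial := Nat.dvd_factorial (by omega) (by omega)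
        obtain ⟨c, hc⟩ := h2
        refine ⟨c * (m * N.factorial - 1).choose k, ?_⟩
        have h3 : (k + 1) * (m * N.factorial).choose (k + 1) =
            (k + 1) * (m * (c * (m * N.factorial - 1).choose k)) := by
          rw [mul_comm (k + 1), ← h1]
          nth_rewrite 1 [hc]
          ring
        exact Nat.eq_of_mul_eq_mul_left (by omega) h3
      obtain ⟨c, hc⟩ := hdvd
      rw [hc, one_pow, mul_one, pow_succ, mul_assoc, Nat.cast_mul]
      have : t * ((m : Matrix (Fin n) (Fin n) R) * (c : Matrix (Fin n) (Fin n) R)) = 0 := by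
        rw [← mul_assoc]
        have : t * (m : Matrix (Fin n) (Fin n) R) = 0 := by
          rw [← nsmul_eq_mul'] 
          exact hmt
        rw [this, zero_mul]
      rw [this, mul_zero]
  rw [this]
  simp

end CommRing

end Pool.Agent.Helper89
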